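import Pool.Agent.TH230.Dos.Cover

/-!
# Traces of matrices over the group algebra
-/

set_option autoImplicit false

namespace Pool.Agent.TH230.Dos

open MonoidAlgebra

/-- the group algebra of the free group -/
abbrev GA (R : Type) [CommRing R] : Type := MonoidAlgebra R FG

section

variable {R S : Type} [CommRing R] [CommRing S]

/-- the canonical trace: the coefficient at `1` -/
def tau (x : GA R) : R := x.coeff 1

@[simp] theorem tau_zero : tau (0 : GA R) = 0 := rfl

@[simp] theorem tau_add (x y : GA R) : tau (x + y) = tau x + tau y := rfl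

@[simp] theorem tau_neg (x : GA R) : tau (-x) = - tau x := rfl

@[simp] theorem tau_sub (x y : GA R) : tau (x - y) = tau x - tau y := rfl

theorem tau_sum {ι : Type} (s : Finset ι) (f : ι → GA R) : tau (∑ i ∈ s, f i) = ∑ i ∈ s, tau (f i) := by
  classical
  induction s using Finset.induction_on with
  | empty => simp
  | insert i s hi ih => rw [Finset.sum_insert hi, Finset.sum_insert hi, tau_add, ih]

theorem tau_mul_comm (x y : GA R) : tau (x * y) = tau (y * x) := by
  unfold tau
  rw [coeff_mul_apply_left, coeff_mul_apply_right]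
  refine Finsupp.sum_congr fun g _ => ?_
  rw [mul_one, one_mul, mul_comm]

/-- scalars in the group algebra -/
noncomputable abbrev sc (r : R) : GA R := single 1 r

theorem sc_mul (r : R) (x : GA R) : sc r * x = r • x := by
  ext g
  simp

theorem mul_sc (r : R) (x : GA R) : x * sc r = r • x := by
  ext g
  simp [mul_comm]

theorem tau_smul (r : R) (x : GA R) : tau (r • x) = r * tau x := rfl

theorem tau_sc_mul (r : R) (x : GA R) : tau (sc r * x) = r * tau x := by
  rw [sc_mul, tau_smul]

theorem tau_mul_sc (r : R) (x : GA R) : tau (x * sc r) = r * tau x := by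
  rw [mul_sc, tau_smul]

theorem sc_comm (r : R) (x : GA R) : sc r * x = x * sc r := by rw [sc_mul, mul_sc]

theorem tau_sc (r : R) : tau (sc r) = r := by simp [tau]

theorem sc_zero : sc (0 : R) = 0 := by simp

theorem sc_one : sc (1 : R) = 1 := rfl

/-- trace of a square matrix over the group algebra -/
def mtr {n : Type} [Fintype n] (M : Matrix n n (GA R)) : R := ∑ i, tau (M i i)

section

variable {n m : Type} [Fintype n] [Fintype m]

theorem mtr_add (M N : Matrix n n (GA R)) : mtr (M + N) = mtr M + mtr N := by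
  simp [mtr, Finset.sum_add_distrib]

theorem mtr_sub (M N : Matrix n n (GA R)) : mtr (M - N) = mtr M - mtr N := by
  simp [mtr, Finset.sum_sub_distrib]

theorem mtr_zero : mtr (0 : Matrix n n (GA R)) = 0 := by
  simp [mtr]

theorem mtr_mul_comm (M : Matrix n m (GA R)) (N : Matrix m n (GA R)) :
    mtr (M * N) = mtr (N * M) := by
  unfold mtr
  simp only [Matrix.mul_apply, tau_sum]
  rw [Finset.sum_comm]
  exact Finset.sum_congr rfl fun i _ => Finset.sum_congr rfl fun j _ => tau_mul_comm _ _

variable [DecidableEq n] [DecidableEq m]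

theorem inter_pow (X : Matrix n n (GA R)) (Y : Matrix m m (GA R)) (U : Matrix n m (GA R))
    (h : X * U = U * Y) (k : ℕ) : X ^ k * U = U * Y ^ k := by
  induction k with
  | zero => simp
  | succ k ih => rw [pow_succ, Matrix.mul_assoc, h, ← Matrix.mul_assoc, ih, Matrix.mul_assoc, ← pow_succ]

theorem mtr_key (P : Matrix n n (GA R)) (Q : Matrix m m (GA R)) (U : Matrix n m (GA R))
    (W : Matrix m n (GA R)) (h : P * U = U * Q) (k j : ℕ) :
    mtr (P ^ j * ((P + U * W) ^ k - P ^ k)) = mtr (Q ^ j * ((Q + W * U) ^ k - Q ^ k)) := by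
  have hXU : (P + U * W) * U = U * (Q + W * U) := by
    rw [Matrix.add_mul, h, Matrix.mul_add, Matrix.mul_assoc]
  induction k generalizing j with
  | zero => simp [mtr_zero]
  | succ k ih =>
    have e1 : P ^ j * ((P + U * W) ^ (k + 1) - P ^ (k + 1)) =
        P ^ (j + 1) * ((P + U * W) ^ k - P ^ k) + U * (Q ^ j * W * (P + U * W) ^ k) := by
      rw [pow_succ' (P + U * W), pow_succ' P k, Matrix.add_mul, pow_succ P j]
      have := inter_pow P Q U h j
      have h2 : P ^ j * (U * W * (P + U * W) ^ k) = U * (Q ^ j * W * (P + U * W) ^ k) := by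
        rw [Matrix.mul_assoc U W, ← Matrix.mul_assoc (P ^ j) U, this]
        simp only [Matrix.mul_assoc]
      rw [add_sub_right_comm, Matrix.mul_add, h2, Matrix.mul_sub, Matrix.mul_sub, Matrix.mul_assoc,
        Matrix.mul_assoc, Matrix.mul_assoc]
    have e2 : Q ^ j * ((Q + W * U) ^ (k + 1) - Q ^ (k + 1)) =
        Q ^ (j + 1) * ((Q + W * U) ^ k - Q ^ k) + Q ^ j * (W * U) * (Q + W * U) ^ k := by
      rw [pow_succ' (Q + W * U), pow_succ' Q k, Matrix.add_mul, pow_succ Q j]
      rw [add_sub_right_comm, Matrix.mul_add, Matrix.mul_sub, Matrix.mul_sub]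
      simp only [Matrix.mul_assoc]
    rw [e1, e2, mtr_add, mtr_add, ih, mtr_mul_comm U]
    congr 2
    rw [Matrix.mul_assoc, inter_pow _ _ U hXU]
    simp only [Matrix.mul_assoc]

/-- The main tool: replacing `P + U W` by `Q + W U`, when `P U = U Q`. -/
theorem mtr_pow (P : Matrix n n (GA R)) (Q : Matrix m m (GA R)) (U : Matrix n m (GA R))
    (W : Matrix m n (GA R)) (h : P * U = U * Q) (k : ℕ) :
    mtr ((P + U * W) ^ k) - mtr (P ^ k) = mtr ((Q + W * U) ^ k) - mtr (Q ^ k) := by
  have := mtr_key P Q U W h k 0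
  simpa [mtr_sub] using this

theorem pow_sub_pow' (X Y : Matrix n n (GA R)) (k : ℕ) :
    X ^ k - Y ^ k = ∑ j ∈ Finset.range k, X ^ j * (X - Y) * Y ^ (k - 1 - j) := by
  induction k with
  | zero => simp
  | succ k ih =>
    rw [Finset.sum_range_succ']
    have e : X ^ (k + 1) - Y ^ (k + 1) = X * (X ^ k - Y ^ k) + (X - Y) * Y ^ k := by
      rw [pow_succ', pow_succ', Matrix.mul_sub, Matrix.sub_mul]
      abel
    rw [e, ih, Finset.mul_sum]
    congr 1
    · refine Finset.sum_congr rfl fun j hj => ?_
      have : k + 1 - 1 - (j + 1) = k - 1 - j := by omega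
      rw [this, pow_succ' X j]
      simp only [Matrix.mul_assoc]
    · simp

end

/-- change of coefficients -/
noncomputable abbrev mp (f : R →+* S) : GA R →+* GA S := mapRingHom FG f

theorem tau_mp (f : R →+* S) (x : GA R) : tau (mp f x) = f (tau x) := by
  simp [tau]

theorem mtr_map {n : Type} [Fintype n] (f : R →+* S) (M : Matrix n n (GA R)) :
    mtr (M.map (mp f)) = f (mtr M) := by
  simp [mtr, tau_mp]

end

end Pool.Agent.TH230.Dos
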