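import Pool.Agent.TH230.Dos.Op

/-!
# Companion form and the exchange of the Dirichlet eigenvalues
-/

set_option autoImplicit false

namespace Pool.Agent.TH230.Dos

open Pool.Agent.Results.MP_24ca2e_an.IsoDosSphere Multigraph MonoidAlgebra

/-- names of the invariants: the potentials, the square of the weight of the connecting edge, and
for each petal the sum of the squares and the product of its two weights -/
inductive Xi : Type
  | b (v : V)
  | e
  | r (i : I)
  | a (i : I)
  deriving DecidableEq, Fintype

section

variable {R S : Type} [CommRing R] [CommRing S]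

/-- `ρ + A (g + g⁻¹)` -/
noncomputable def kk (ξ : Xi → R) (i : I) : GA R :=
  sc (ξ (.r i)) + (single (gn i) (ξ (.a i)) + single (gn i)⁻¹ (ξ (.a i)))

/-- linear part of the companion matrix -/
noncomputable def LN (ξ : Xi → R) : Matrix V V (GA R) := fun v w => match v, w with
  | (s, none), (t, none) =>
    if s = t then sc (ξ (.b (s, none))) else if s = false then sc (ξ .e) else 0
  | (s, none), (t, some i) => if s = t then kk ξ (s, i) else 0
  | (_, some _), (_, none) => 0
  | (s, some i), (t, some j) => if s = t ∧ i = j then sc (ξ (.b (s, some i))) else 0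

/-- constant part of the companion matrix -/
noncomputable def C0 : Matrix V V (GA R) := fun v w => match v, w with
  | (s, none), (t, none) => if s = true ∧ t = false then 1 else 0
  | (_, none), (_, some _) => 0
  | (s, some _), (t, none) => if s = t then 1 else 0
  | (_, some _), (_, some _) => 0

/-- the companion matrix -/
noncomputable def MM (ξ : Xi → R) : Matrix V V (GA R) := LN ξ + C0

theorem kk_map (f : R →+* S) (ξ : Xi → R) (i : I) : mp f (kk ξ i) = kk (fun x => f (ξ x)) i := by
  simp [kk]

theorem LN_map (f : R →+* S) (ξ : Xi → R) : (LN ξ).map (mp f) = LN (fun x => f (ξ x)) := by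
  ext1 ⟨s, i⟩ ⟨t, j⟩
  rcases i with _ | i <;> rcases j with _ | j
  · cases s <;> cases t <;> simp [LN]
  · cases s <;> cases t <;> simp [LN, kk_map]
  · simp [LN]
  · by_cases h : s = t ∧ i = j <;> simp [LN, h]

theorem C0_map (f : R →+* S) : (C0 : Matrix V V (GA R)).map (mp f) = C0 := by
  ext1 ⟨s, i⟩ ⟨t, j⟩
  rcases i with _ | i <;> rcases j with _ | j
  · by_cases h : s = true ∧ t = false <;> simp [C0, h]
  · simp [C0]
  · by_cases h : s = t <;> simp [C0, h]
  · simp [C0]

theorem MM_map (f : R →+* S) (ξ : Xi → R) : (MM ξ).map (mp f) = MM (fun x => f (ξ x)) := by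
  unfold MM
  rw [Matrix.map_add _ (map_add _), LN_map, C0_map]

theorem kk_sub (ξ η : Xi → R) (i : I) : kk (ξ - η) i = kk ξ i - kk η i := by
  unfold kk
  simp only [Pi.sub_apply, single_sub, sc]
  abel

theorem LN_sub (ξ η : Xi → R) : LN (ξ - η) = LN ξ - LN η := by
  ext1 ⟨s, i⟩ ⟨t, j⟩
  rcases i with _ | i <;> rcases j with _ | j
  · cases s <;> cases t <;> simp [LN, single_sub]
  · cases s <;> cases t <;> simp [LN, kk_sub]
  · simp [LN]
  · by_cases h : s = t ∧ i = j <;> simp [LN, h, single_sub]

theorem LN_smul (c : R) (ξ : Xi → R) : LN (c • ξ) = (sc c) • LN ξ := by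
  ext1 ⟨s, i⟩ ⟨t, j⟩
  rcases i with _ | i <;> rcases j with _ | j
  · cases s <;> cases t <;> simp [LN]
  · cases s <;> cases t <;> simp [LN, kk, mul_add]
  · simp [LN]
  · by_cases h : s = t ∧ i = j <;> simp [LN, h]

theorem MM_sub (ξ η : Xi → R) : MM ξ - MM η = LN (ξ - η) := by
  rw [LN_sub]
  unfold MM
  abel

end

/-! ### From the lift to the companion matrix -/

/-- the invariants of a Jacobi matrix -/
noncomputable def xi (J : PJ) : Xi → ℝ
  | .b v => J.1 v
  | .e => J.2 none ^ 2
  | .r i => J.2 (some (i, false)) ^ 2 + J.2 (some (i, true)) ^ 2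
  | .a i => J.2 (some (i, false)) * J.2 (some (i, true))

theorem al_mul_als (J : PJ) (i : I) : al J i * als J i = kk (xi J) i := by
  simp only [al, als, kk, xi, add_mul, mul_add, single_mul_single, one_mul, mul_one,
    mul_inv_cancel, single_add, pow_two]
  rw [mul_comm (J.2 (some (i, true))) (J.2 (some (i, false)))]
  abel

section

variable (J : PJ)

noncomputable def PP : Matrix V V (GA ℝ) := Matrix.diagonal fun v => match v with
  | (_, none) => 0
  | (s, some i) => sc (J.1 (s, some i))

noncomputable def dU (v : V) : GA ℝ := match v with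
  | (s, none) => if s = true then sc (J.2 none) else 1
  | (s, some i) => if s = true then sc (J.2 none) * als J (s, i) else als J (s, i)

noncomputable def WW : Matrix V V (GA ℝ) := fun v w => match v, w with
  | (false, none), w => match w with
    | (false, none) => sc (J.1 (false, none))
    | (true, none) => sc (J.2 none)
    | (false, some i) => al J (false, i)
    | (true, some _) => 0
  | (true, none), w => match w with
    | (false, none) => 1
    | (true, none) => sc ((J.2 none)⁻¹ * J.1 (true, none))
    | (false, some _) => 0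
    | (true, some i) => sc (J.2 none)⁻¹ * al J (true, i)
  | (s, some _), (t, none) => if s = t then (if s = true then sc (J.2 none)⁻¹ else 1) else 0
  | (_, some _), (_, some _) => 0

theorem comp1 : PP J * Matrix.diagonal (dU J) = Matrix.diagonal (dU J) * PP J := by
  unfold PP
  rw [Matrix.diagonal_mul_diagonal, Matrix.diagonal_mul_diagonal]
  congr 1
  funext v
  obtain ⟨s, _ | i⟩ := v
  · simp
  · exact sc_comm _ _

theorem comp2 (h : J.2 none ≠ 0) : HH J = PP J + Matrix.diagonal (dU J) * WW J := by
  ext1 v w
  rw [Matrix.add_apply, Matrix.diagonal_mul]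
  have h1 : J.2 none * (J.2 none)⁻¹ = 1 := mul_inv_cancel₀ h
  obtain ⟨s, i⟩ := v
  obtain ⟨t, j⟩ := w
  rcases i with _ | i <;> rcases j with _ | j <;> cases s <;> cases t
  all_goals simp [HH, PP, dU, WW, Matrix.diagonal_apply, h, ← mul_assoc]
  · rw [← one_def, one_mul]
  · rw [sc_mul, mul_sc, smul_smul, inv_mul_cancel₀ h, one_smul]

theorem comp3 (h : J.2 none ≠ 0) : MM (xi J) = PP J + WW J * Matrix.diagonal (dU J) := by
  ext1 v w
  rw [Matrix.add_apply, Matrix.mul_diagonal]
  obtain ⟨s, i⟩ := v
  obtain ⟨t, j⟩ := w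
  rcases i with _ | i <;> rcases j with _ | j <;> cases s <;> cases t
  all_goals simp [MM, LN, C0, PP, dU, WW, Matrix.diagonal_apply, h, xi, al_mul_als]
  · ring
  · field_simp
  · rw [sc_mul, sc_mul, smul_mul_smul_comm, inv_mul_cancel₀ h, one_smul, al_mul_als]
  · rfl

/-- The moments are the traces of the powers of the companion matrix. -/
theorem mtr_HH (h : J.2 none ≠ 0) (n : ℕ) : mtr (HH J ^ n) = mtr (MM (xi J) ^ n) := by
  have := mtr_pow (PP J) (PP J) (Matrix.diagonal (dU J)) (WW J) (comp1 J) n
  rw [← comp2 J h, ← comp3 J h] at this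
  linear_combination this

end

/-! ### Merging the outer vertices of a side with equal potentials -/

section

variable {R : Type} [CommRing R]

/-- the reduced matrix; `(s, false)` stands for the centre of side `s`, `(s, true)` for the merged
outer vertices -/
noncomputable def M4 (b z : Bool → R) (e : R) (K : Bool → GA R) :
    Matrix (Bool × Bool) (Bool × Bool) (GA R) := fun v w => match v, w with
  | (s, false), (t, false) => if s = t then sc (b s) else if s = false then sc e else 1
  | (s, false), (t, true) => if s = t then K s else 0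
  | (s, true), (t, false) => if s = t then 1 else 0
  | (s, true), (t, true) => if s = t then sc (z s) else 0

/-- embedding of the merged vertices -/
noncomputable def UU (R : Type) [CommRing R] : Matrix V (Bool × Bool) (GA R) := fun v w => match v, w with
  | (s, none), (t, false) => if s = t then 1 else 0
  | (_, none), (_, true) => 0
  | (_, some _), (_, false) => 0
  | (s, some _), (t, true) => if s = t then 1 else 0

noncomputable def WV (ξ : Xi → R) : Matrix (Bool × Bool) V (GA R) := fun v w => match v, w with
  | (s, false), w => MM ξ (s, none) w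
  | (s, true), (t, none) => if s = t then 1 else 0
  | (_, true), (_, some _) => 0

noncomputable def PZ (z : Bool → R) : Matrix V V (GA R) := Matrix.diagonal fun v => match v with
  | (_, none) => 0
  | (s, some _) => sc (z s)

noncomputable def QZ (z : Bool → R) : Matrix (Bool × Bool) (Bool × Bool) (GA R) :=
  Matrix.diagonal fun v => match v with
  | (_, false) => 0
  | (s, true) => sc (z s)

theorem merge1 (z : Bool → R) : PZ z * UU R = UU R * QZ z := by
  ext1 v w
  unfold PZ QZ
  rw [Matrix.diagonal_mul, Matrix.mul_diagonal]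
  obtain ⟨s, i⟩ := v
  obtain ⟨t, o⟩ := w
  rcases i with _ | i <;> cases o <;> cases s <;> cases t <;> simp [UU]

theorem merge2 (ξ : Xi → R) (z : Bool → R) (h : ∀ s i, ξ (.b (s, some i)) = z s) :
    MM ξ = PZ z + UU R * WV ξ := by
  ext1 v w
  rw [Matrix.add_apply, Matrix.mul_apply, Fintype.sum_prod_type, Fintype.sum_bool,
    Fintype.sum_bool, Fintype.sum_bool]
  obtain ⟨s, i⟩ := v
  obtain ⟨t, j⟩ := w
  rcases i with _ | i <;> rcases j with _ | j
  · cases s <;> cases t <;> simp [UU, WV, PZ, MM, LN, C0, Matrix.diagonal_apply]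
  · cases s <;> cases t <;> simp [UU, WV, PZ, MM, LN, C0, Matrix.diagonal_apply]
  · cases s <;> cases t <;> simp [UU, WV, PZ, MM, LN, C0, Matrix.diagonal_apply]
  · by_cases hij : s = t ∧ i = j
    · obtain ⟨rfl, rfl⟩ := hij
      cases s <;> simp [UU, WV, PZ, MM, LN, C0, Matrix.diagonal_apply, h]
    · have : ¬ ((s, some i) : V) = (t, some j) := by
        intro hh
        apply hij
        simpa using hh
      cases s <;> simp [UU, WV, PZ, MM, LN, C0, Matrix.diagonal_apply, this]
      all_goals
        intro h1 h2
        exact absurd ⟨h1.symm, h2⟩ hij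

theorem merge3 (ξ : Xi → R) (z : Bool → R) :
    M4 (fun s => ξ (.b (s, none))) z (ξ .e) (fun s => kk ξ (s, 0) + kk ξ (s, 1)) =
      QZ z + WV ξ * UU R := by
  ext1 v w
  rw [Matrix.add_apply, Matrix.mul_apply, Fintype.sum_prod_type, Fintype.sum_bool,
    Fintype.sum_option, Fintype.sum_option, Fin.sum_univ_two, Fin.sum_univ_two]
  obtain ⟨s, o⟩ := v
  obtain ⟨t, p⟩ := w
  cases o <;> cases p <;> cases s <;> cases t <;>
    simp [UU, WV, QZ, M4, MM, LN, C0, Matrix.diagonal_apply]

theorem mtr_MM (ξ : Xi → R) (z : Bool → R) (h : ∀ s i, ξ (.b (s, some i)) = z s) (n : ℕ) :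
    mtr (MM ξ ^ n) = mtr (M4 (fun s => ξ (.b (s, none))) z (ξ .e)
      (fun s => kk ξ (s, 0) + kk ξ (s, 1)) ^ n) + (mtr (PZ z ^ n) - mtr (QZ z ^ n)) := by
  have := mtr_pow (PZ z) (QZ z) (UU R) (WV ξ) (merge1 z) n
  rw [← merge2 ξ z h, ← merge3 ξ z] at this
  linear_combination this

theorem mtr_PZ_swap (z z' : Bool → R) (hz : ∀ s, z' s = z (!s)) (n : ℕ) :
    mtr (PZ z ^ n) - mtr (QZ z ^ n) = mtr (PZ z' ^ n) - mtr (QZ z' ^ n) := by
  unfold PZ QZ mtr
  simp only [Matrix.diagonal_pow, Matrix.diagonal_apply_eq, Fintype.sum_prod_type,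
    Fintype.sum_bool, Fintype.sum_option, hz]
  simp only [Bool.not_true, Bool.not_false, Pi.pow_apply]
  ring

end

/-! ### Exchanging the potentials of the outer vertices of the two sides -/

section

variable {R : Type} [CommRing R]

theorem mtr_conj {n : Type} [Fintype n] [DecidableEq n] (C X C' : Matrix n n (GA R))
    (h : C' * C = 1) (k : ℕ) : mtr ((C * X * C') ^ k) = mtr (X ^ k) := by
  have := mtr_pow (0 : Matrix n n (GA R)) 0 C (X * C') (by simp) k
  rw [Matrix.mul_assoc X C' C, h, Matrix.mul_one, ← Matrix.mul_assoc, zero_add, zero_add] at this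
  linear_combination this

/-- the new matrix of one side -/
noncomputable def nK (b z : Bool → R) (K : Bool → GA R) (s : Bool) : GA R :=
  K s + sc ((z (!s) - z s) * (b s - z (!s)))

noncomputable def U4 (c : Bool → R) : Matrix (Bool × Bool) (Bool × Bool) (GA R) :=
  fun v w => match v, w with
  | (s, false), (t, false) => if s = t then 1 else 0
  | (s, false), (t, true) => if s = t then sc (c s) else 0
  | (_, true), (_, false) => 0
  | (s, true), (t, true) => if s = t then 1 else 0

noncomputable def S4 (b z : Bool → R) (e : R) (K : Bool → GA R) :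
    Matrix (Bool × Bool) (Bool × Bool) (GA R) := fun v w => match v, w with
  | (s, false), (t, false) =>
    if s = t then sc (b s + z s - z (!s) - z (!s)) else if s = false then sc e else 1
  | (s, false), (t, true) => if s = t then nK b z K s else 0
  | (s, true), (t, false) => if s = t then 1 else 0
  | (_, true), (_, true) => 0

noncomputable def G4 (z : Bool → R) : Matrix (Bool × Bool) (Bool × Bool) (GA R) :=
  Matrix.diagonal fun v => sc (z (!v.1))

noncomputable def O4 (e : R) : Matrix (Bool × Bool) (Bool × Bool) (GA R) := fun v w => match v, w with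
  | (false, false), (true, true) => sc e
  | (true, false), (false, true) => 1
  | _, _ => 0

noncomputable def H4 (z : Bool → R) (e : R) : Matrix (Bool × Bool) (Bool × Bool) (GA R) :=
  fun v w => match v, w with
  | (false, false), (true, true) => sc (e * (z false - z true))
  | (true, false), (false, true) => sc (z true - z false)
  | v, w => if v = w then sc (z (!v.1)) else 0

theorem sw_a (b z : Bool → R) (e : R) (K : Bool → GA R) :
    M4 (fun s => b s + z s - z (!s)) (fun s => z (!s)) e (nK b z K) = G4 z + S4 b z e K := by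
  ext1 v w
  rw [Matrix.add_apply]
  unfold G4
  rw [Matrix.diagonal_apply]
  obtain ⟨s, o⟩ := v
  obtain ⟨t, p⟩ := w
  cases o <;> cases p <;> cases s <;> cases t <;> simp [M4, S4, ← single_add]

theorem sw_b (b z : Bool → R) (e : R) (K : Bool → GA R) :
    M4 b z e K * U4 (fun s => z (!s) - z s) = U4 (fun s => z (!s) - z s) * (H4 z e + S4 b z e K) := by
  ext1 v w
  rw [Matrix.mul_apply, Matrix.mul_apply, Fintype.sum_prod_type, Fintype.sum_prod_type]
  simp only [Fintype.sum_bool]
  obtain ⟨s, o⟩ := v
  obtain ⟨t, p⟩ := w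
  cases o <;> cases p <;> cases s <;> cases t <;> simp [M4, S4, H4, U4, nK, single_mul_single]
  · rw [← single_sub, single_mul_single, single_mul_single, mul_one, add_left_comm, ← single_add]
    congr 2
    ring
  · rw [← single_sub, single_mul_single, mul_one]
  · rw [← single_sub, single_mul_single, single_mul_single, mul_one, add_left_comm, ← single_add]
    congr 2
    ring

theorem sw_c (b z : Bool → R) (e : R) (K : Bool → GA R) :
    H4 z e * S4 b z e K = S4 b z e K * G4 z := by
  ext1 v w
  unfold G4
  rw [Matrix.mul_diagonal, Matrix.mul_apply, Fintype.sum_prod_type]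
  simp only [Fintype.sum_bool]
  obtain ⟨s, o⟩ := v
  obtain ⟨t, p⟩ := w
  cases o <;> cases p <;> cases s <;> cases t <;> simp [S4, H4, single_mul_single]
  · exact sc_comm _ _
  · rw [← single_add]
    congr 1
    ring
  · exact sc_comm _ _
  · exact sc_comm _ _
  · exact sc_comm _ _

theorem sw_d (c : Bool → R) : U4 (fun s => - c s) * U4 c = 1 := by
  ext1 v w
  rw [Matrix.mul_apply, Fintype.sum_prod_type]
  simp only [Fintype.sum_bool]
  obtain ⟨s, o⟩ := v
  obtain ⟨t, p⟩ := w
  cases o <;> cases p <;> cases s <;> cases t <;> simp [U4, Matrix.one_apply]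

theorem sw_d' (c : Bool → R) : U4 c * U4 (fun s => - c s) = 1 := by
  have := sw_d (fun s => - c s)
  simpa using this

theorem sw_e (z : Bool → R) (e : R) : H4 z e = (1 + O4 e) * G4 z * (1 - O4 e) := by
  ext1 v w
  unfold G4
  rw [Matrix.mul_apply, Fintype.sum_prod_type]
  simp only [Fintype.sum_bool, Matrix.mul_diagonal]
  obtain ⟨s, o⟩ := v
  obtain ⟨t, p⟩ := w
  cases o <;> cases p <;> cases s <;> cases t <;> simp [H4, O4, Matrix.one_apply]
  · rw [← single_neg, ← single_add]
    congr 1
    ring
  · abel

theorem sw_f (e : R) : (1 - O4 e) * (1 + O4 e) = 1 := by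
  have h : O4 e * O4 e = 0 := by
    ext1 v w
    rw [Matrix.mul_apply, Fintype.sum_prod_type]
    simp only [Fintype.sum_bool]
    obtain ⟨s, o⟩ := v
    obtain ⟨t, p⟩ := w
    cases o <;> cases p <;> cases s <;> cases t <;> simp [O4]
  rw [sub_mul, mul_add, mul_add, h]
  simp

/-- The exchange of the two outer potentials. -/
theorem swap (b z : Bool → R) (e : R) (K : Bool → GA R) (n : ℕ) :
    mtr (M4 b z e K ^ n) =
      mtr (M4 (fun s => b s + z s - z (!s)) (fun s => z (!s)) e (nK b z K) ^ n) := by
  have h1 : M4 b z e K = U4 (fun s => z (!s) - z s) * (H4 z e + S4 b z e K) *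
      U4 (fun s => - (z (!s) - z s)) := by
    rw [← sw_b, Matrix.mul_assoc, sw_d', Matrix.mul_one]
  have h2 := mtr_pow (H4 z e) (G4 z) (S4 b z e K) 1 (sw_c b z e K) n
  rw [Matrix.mul_one, Matrix.one_mul, ← sw_a] at h2
  have h3 : mtr (H4 z e ^ n) = mtr (G4 z ^ n) := by
    rw [sw_e]
    exact mtr_conj _ _ _ (sw_f e) n
  rw [h1, mtr_conj _ _ _ (sw_d _) n]
  linear_combination h2 + h3

end

end Pool.Agent.TH230.Dos
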