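import Pool.Agent.Results.MP_24ca2e_an.IsoDosSphere

/-!
# A graph with two hubs and its universal cover

The graph `hub` has two centres joined by an edge; to each centre two further vertices are
attached, each by two parallel edges. Its universal cover is modelled on `F × V`, with `F` the free
group on four generators.
-/

set_option autoImplicit false

namespace Pool.Agent.TH230.Dos

open Pool.Agent.Results.MP_24ca2e_an.IsoDosSphere Multigraph

/-! ### Words in the free group -/

/-- index of a petal: the side (`false` or `true`) and the number of the petal on that side -/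
abbrev I : Type := Bool × Fin 2

/-- the free group on the four petals -/
abbrev FG : Type := FreeGroup I

/-- the generator of the petal `i` -/
abbrev gn (i : I) : FG := FreeGroup.of i

theorem toWord_gn_mul (j : I) (g : FG) : (gn j * g).toWord = match g.toWord with
    | [] => [(j, true)]
    | y :: t => if j = y.1 ∧ true = !y.2 then t else (j, true) :: y :: t := by
  rw [FreeGroup.toWord_mul, FreeGroup.toWord_of]
  simp only [List.cons_append, List.nil_append, FreeGroup.reduce.cons, FreeGroup.reduce_toWord]
  cases g.toWord <;> rfl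

/-- last letter of the reduced word -/
def lst (g : FG) : Option (I × Bool) := g.toWord.getLast?

theorem lst_one : lst 1 = none := by simp [lst]

theorem lst_gn (j : I) : lst (gn j) = some (j, true) := by simp [lst]

theorem lst_gn_inv (j : I) : lst (gn j)⁻¹ = some (j, false) := by
  simp [lst, FreeGroup.toWord_inv, FreeGroup.invRev]

theorem lst_gn_mul (j : I) (g : FG) (h1 : g ≠ 1) (h2 : gn j * g ≠ 1) :
    lst (gn j * g) = lst g := by
  have h2' : (gn j * g).toWord ≠ [] := fun h => h2 (FreeGroup.toWord_eq_nil_iff.1 h)
  unfold lst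
  rw [toWord_gn_mul] at h2' ⊢
  rcases hw : g.toWord with _ | ⟨⟨y, c⟩, t⟩
  · exact absurd (FreeGroup.toWord_eq_nil_iff.1 hw) h1
  · rw [hw] at h2'
    by_cases hc : j = y ∧ true = !c
    · simp only [hc] at h2' ⊢
      rcases t with _ | ⟨z, t⟩
      · simp at h2'
      · simp [List.getLast?_cons_cons]
    · have : ¬ (j = (y, c).1 ∧ true = !(y, c).2) := hc
      simp only [this, if_false, List.getLast?_cons_cons]

/-- The reduced word of `g` ends in the letter `(i, true)`. -/
def ch (i : I) (g : FG) : Prop := lst g = some (i, true)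

theorem not_ch_one (i : I) : ¬ ch i 1 := by simp [ch, lst_one]

theorem ch_gn (i : I) : ch i (gn i) := by simp [ch, lst_gn]

theorem eq_gn_inv {j : I} {g : FG} (h : gn j * g = 1) : g = (gn j)⁻¹ := eq_inv_of_mul_eq_one_right h

theorem ch_gn_mul (i j : I) (g : FG) (h : ¬ (g = 1 ∧ j = i)) :
    ch i (gn j * g) ↔ ch i g := by
  by_cases h1 : g = 1
  · subst h1
    have : j ≠ i := fun hj => h ⟨rfl, hj⟩
    simp [ch, lst_gn, lst_one, this]
  · by_cases h2 : gn j * g = 1
    · rw [h2, eq_gn_inv h2]
      simp [ch, lst_gn_inv, lst_one]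
    · unfold ch
      rw [lst_gn_mul j g h1 h2]

/-- The side to which the branch of `g` as seen from `1` belongs; `d` is the value at `1`. -/
def sd (d : Bool) (g : FG) : Bool := match lst g with
  | none => d
  | some y => y.1.1

theorem sd_gn_mul (j : I) (g : FG) (d d' : Bool) (h : g = 1 → d = j.1)
    (h' : gn j * g = 1 → d' = j.1) : sd d' (gn j * g) = sd d g := by
  by_cases h1 : g = 1
  · rw [h h1]
    subst h1
    simp [sd, lst_one, lst_gn]
  · by_cases h2 : gn j * g = 1
    · rw [h' h2, h2, eq_gn_inv h2]
      simp [sd, lst_gn_inv, lst_one]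
    · unfold sd
      rw [lst_gn_mul j g h1 h2]
      rcases hl : lst g with _ | y
      · exfalso
        apply h1
        unfold lst at hl
        rw [List.getLast?_eq_none_iff] at hl
        exact FreeGroup.toWord_eq_nil_iff.1 hl
      · rfl

theorem sd_ne (g : FG) (h : g ≠ 1) (d d' : Bool) : sd d g = sd d' g := by
  unfold sd
  rcases hl : lst g with _ | y
  · exfalso
    apply h
    unfold lst at hl
    rw [List.getLast?_eq_none_iff] at hl
    exact FreeGroup.toWord_eq_nil_iff.1 hl
  · rfl

theorem closed_of_gn (S : FG → Prop) (h1 : S 1) (hg : ∀ i g, S g → S (gn i * g))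
    (hg' : ∀ i g, S g → S ((gn i)⁻¹ * g)) (g : FG) : S g := by
  have : ∀ g h : FG, S h → S (g * h) := by
    intro g
    induction g using FreeGroup.induction_on with
    | C1 => intro h hh; simpa using hh
    | of i => intro h hh; exact hg i h hh
    | inv_of i _ => intro h hh; exact hg' i h hh
    | mul x y hx hy =>
      intro h hh
      rw [mul_assoc]
      exact hx _ (hy _ hh)
  simpa using this g 1 h1

/-! ### The graph -/

/-- vertices: `(s, none)` is the centre of side `s`, `(s, some i)` an outer vertex -/
abbrev V : Type := Bool × Option (Fin 2)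

/-- edges: `none` joins the centres, `some ((s, i), c)` are the two edges between the centre of
side `s` and its outer vertex `i` -/
abbrev E : Type := Option (I × Bool)

/-- The graph with two centres and four outer vertices. -/
def hub : Multigraph V E where
  fst e := match e with
    | none => (false, none)
    | some (i, _) => (i.1, none)
  snd e := match e with
    | none => (true, none)
    | some (i, _) => (i.1, some i.2)

theorem hub_connected : hub.Connected := by
  refine ⟨⟨(false, none)⟩, ?_⟩
  have h1 : ∀ (s : Bool) (i : Fin 2),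
      Relation.ReflTransGen (fun z w => ∃ d, hub.src d = z ∧ hub.tgt d = w)
      (s, none) (s, some i) :=
    fun s i => Relation.ReflTransGen.single ⟨(some ((s, i), false), true), rfl, rfl⟩
  have h2 : ∀ (s : Bool) (i : Fin 2),
      Relation.ReflTransGen (fun z w => ∃ d, hub.src d = z ∧ hub.tgt d = w)
      (s, some i) (s, none) :=
    fun s i => Relation.ReflTransGen.single ⟨(some ((s, i), false), false), rfl, rfl⟩
  have h3 : ∀ s t : Bool, Relation.ReflTransGen (fun z w => ∃ d, hub.src d = z ∧ hub.tgt d = w)
      ((s, none) : V) (t, none) := by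
    intro s t
    cases s <;> cases t
    · exact Relation.ReflTransGen.refl
    · exact Relation.ReflTransGen.single ⟨(none, true), rfl, rfl⟩
    · exact Relation.ReflTransGen.single ⟨(none, false), rfl, rfl⟩
    · exact Relation.ReflTransGen.refl
  have h4 : ∀ x : V, Relation.ReflTransGen (fun z w => ∃ d, hub.src d = z ∧ hub.tgt d = w)
      x (x.1, none) := by
    rintro ⟨s, _ | i⟩
    · exact Relation.ReflTransGen.refl
    · exact h2 s i
  have h5 : ∀ x : V, Relation.ReflTransGen (fun z w => ∃ d, hub.src d = z ∧ hub.tgt d = w)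
      (x.1, none) x := by
    rintro ⟨s, _ | i⟩
    · exact Relation.ReflTransGen.refl
    · exact h1 s i
  intro x y
  exact ((h4 x).trans (h3 x.1 y.1)).trans (h5 y)

theorem hub_degree (x : V) : 2 ≤ hub.degree x := by
  classical
  unfold Multigraph.degree
  rw [Nat.card_eq_fintype_card]
  rcases x with ⟨s, _ | i⟩
  · refine le_trans (by simp : 2 ≤ Fintype.card Bool) ?_
    refine Fintype.card_le_of_injective
      (fun c : Bool => (⟨(some ((s, 0), c), true), rfl⟩ : {d // hub.src d = (s, none)})) ?_
    intro a b h
    have := congrArg (fun z => z.1.1) h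
    simpa using this
  · refine le_trans (by simp : 2 ≤ Fintype.card Bool) ?_
    refine Fintype.card_le_of_injective
      (fun c : Bool => (⟨(some ((s, i), c), false), rfl⟩ : {d // hub.src d = (s, some i)})) ?_
    intro a b h
    have := congrArg (fun z => z.1.1) h
    simpa using this

/-! ### The tree -/

/-- Vertices of the universal cover: `(g, v)` lies over `v`. The outer vertex `(g, (s, some i))`
is the midpoint between the centres `(g, (s, none))` and `(gn (s, i) * g, (s, none))`. -/
abbrev TT : Type := FG × V

/-- the end of the dart `d` at the tree vertex `y` -/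
def stp : TT → E × Bool → TT
  | (g, (s, none)), (none, _) => (g, (!s, none))
  | (g, (_, none)), (some ((s', i), false), _) => (g, (s', some i))
  | (g, (_, none)), (some ((s', i), true), _) => ((gn (s', i))⁻¹ * g, (s', some i))
  | (g, (s, some _)), (none, _) => (g, (s, none))
  | (g, (s, some _)), (some (_, false), _) => (g, (s, none))
  | (g, (_, some _)), (some ((s', i), true), _) => (gn (s', i) * g, (s', none))

/-- half of the adjacency relation -/
inductive Ad : TT → TT → Prop
  | bridge (g : FG) : Ad (g, (false, none)) (g, (true, none))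
  | near (g : FG) (s : Bool) (i : Fin 2) : Ad (g, (s, none)) (g, (s, some i))
  | far (g : FG) (s : Bool) (i : Fin 2) : Ad (gn (s, i) * g, (s, none)) (g, (s, some i))

theorem Ad.ne {y z : TT} (h : Ad y z) : y ≠ z := by
  rcases h with g | ⟨g, s, i⟩ | ⟨g, s, i⟩ <;> simp

/-- The tree. -/
def hubTree : SimpleGraph TT where
  Adj y z := Ad y z ∨ Ad z y
  symm := ⟨fun y z h => h.symm⟩
  loopless := ⟨fun y h => by rcases h with h | h <;> exact h.ne rfl⟩

theorem hubTree_connected : hubTree.Connected := by
  have hA : ∀ {y z : TT}, Ad y z → hubTree.Reachable y z := fun h =>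
    SimpleGraph.Adj.reachable (Or.inl h)
  have h3 : ∀ (g : FG) (s t : Bool), hubTree.Reachable (g, (s, none)) (g, (t, none)) := by
    intro g s t
    cases s <;> cases t
    · exact SimpleGraph.Reachable.refl _
    · exact hA (Ad.bridge g)
    · exact (hA (Ad.bridge g)).symm
    · exact SimpleGraph.Reachable.refl _
  have h1 : ∀ (i : I) (g : FG) (t : Bool),
      hubTree.Reachable (g, (t, none)) (gn i * g, (t, none)) := by
    rintro ⟨s, i⟩ g t
    exact ((h3 g t s).trans (hA (Ad.near g s i))).trans
      ((hA (Ad.far g s i)).symm.trans (h3 _ s t))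
  have h4 : ∀ g : FG, hubTree.Reachable (1, (false, none)) (g, (false, none)) := by
    refine closed_of_gn _ (SimpleGraph.Reachable.refl _) ?_ ?_
    · intro i g hg
      exact hg.trans (h1 i g false)
    · intro i g hg
      have := h1 i ((gn i)⁻¹ * g) false
      rw [mul_inv_cancel_left] at this
      exact hg.trans this.symm
  have h5 : ∀ y : TT, hubTree.Reachable (1, (false, none)) y := by
    rintro ⟨g, s, _ | i⟩
    · exact (h4 g).trans (h3 g false s)
    · exact ((h4 g).trans (h3 g false s)).trans (hA (Ad.near g s i))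
  exact { preconnected := fun y z => (h5 y).symm.trans (h5 z), nonempty := ⟨(1, (false, none))⟩ }

theorem isBridge_of_Ad (v w : TT) (ψ : TT → Prop)
    (h : ∀ x y, Ad x y → s(x, y) ≠ s(v, w) → (ψ x ↔ ψ y)) (hv : ¬ ψ v) (hw : ψ w) :
    hubTree.IsBridge s(v, w) := by
  refine isBridge_of_pred hubTree v w ψ ?_ hv hw
  rintro x y (hxy | hxy) hne
  · exact h x y hxy hne
  · exact (h y x hxy (by rwa [Sym2.eq_swap])).symm

theorem mul_inv_ne_one {g h : FG} (hne : h ≠ g) : h * g⁻¹ ≠ 1 := fun h1 => hne (mul_inv_eq_one.1 h1)

theorem bridge_bridge (g : FG) :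
    hubTree.IsBridge s(((g, (false, none)) : TT), (g, (true, none))) := by
  refine isBridge_of_Ad _ _ (fun y => sd y.2.1 (y.1 * g⁻¹) = true) ?_ ?_ ?_
  · intro x y hxy hne
    rcases hxy with h | ⟨h, s, i⟩ | ⟨h, s, i⟩
    · have : h ≠ g := by rintro rfl; exact hne rfl
      change sd _ _ = true ↔ sd _ _ = true
      rw [sd_ne _ (mul_inv_ne_one this) false true]
    · exact Iff.rfl
    · change sd s (gn (s, i) * h * g⁻¹) = true ↔ sd s (h * g⁻¹) = true
      rw [mul_assoc, sd_gn_mul (s, i) (h * g⁻¹) s s (fun _ => rfl) (fun _ => rfl)]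
  · simp [sd, lst_one]
  · simp [sd, lst_one]

theorem ch_shift (i j : I) (g h : FG) (hne : ¬ (h = g ∧ j = i)) :
    ch i (gn j * h * g⁻¹) ↔ ch i (h * g⁻¹) := by
  rw [mul_assoc]
  refine ch_gn_mul i j _ fun hh => hne ⟨?_, hh.2⟩
  exact mul_inv_eq_one.1 hh.1

theorem bridge_near (g : FG) (s : Bool) (i : Fin 2) :
    hubTree.IsBridge s(((g, (s, none)) : TT), (g, (s, some i))) := by
  refine isBridge_of_Ad _ _ (fun y => match y with
    | (h, (_, none)) => ch (s, i) (h * g⁻¹)
    | (h, (t, some j)) => ch (s, i) (gn (t, j) * h * g⁻¹)) ?_ ?_ ?_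
  · intro x y hxy hne
    rcases hxy with h | ⟨h, t, j⟩ | ⟨h, t, j⟩
    · exact Iff.rfl
    · change ch (s, i) (h * g⁻¹) ↔ ch (s, i) (gn (t, j) * h * g⁻¹)
      refine (ch_shift (s, i) (t, j) g h ?_).symm
      rintro ⟨rfl, hj⟩
      have h1 : t = s := congrArg Prod.fst hj
      have h2 : j = i := congrArg Prod.snd hj
      subst h1; subst h2
      exact hne rfl
    · exact Iff.rfl
  · change ¬ ch (s, i) (g * g⁻¹)
    rw [mul_inv_cancel]; exact not_ch_one _
  · change ch (s, i) (gn (s, i) * g * g⁻¹)
    rw [mul_inv_cancel_right]; exact ch_gn _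

theorem bridge_far (g : FG) (s : Bool) (i : Fin 2) :
    hubTree.IsBridge s(((g, (s, some i)) : TT), (gn (s, i) * g, (s, none))) := by
  refine isBridge_of_Ad _ _ (fun y => ch (s, i) (y.1 * g⁻¹)) ?_ ?_ ?_
  · intro x y hxy hne
    rcases hxy with h | ⟨h, t, j⟩ | ⟨h, t, j⟩
    · exact Iff.rfl
    · exact Iff.rfl
    · change ch (s, i) (gn (t, j) * h * g⁻¹) ↔ ch (s, i) (h * g⁻¹)
      refine ch_shift (s, i) (t, j) g h ?_
      rintro ⟨rfl, hj⟩
      have h1 : t = s := congrArg Prod.fst hj
      have h2 : j = i := congrArg Prod.snd hj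
      subst h1; subst h2
      exact hne Sym2.eq_swap
  · change ¬ ch (s, i) (g * g⁻¹)
    rw [mul_inv_cancel]; exact not_ch_one _
  · change ch (s, i) (gn (s, i) * g * g⁻¹)
    rw [mul_inv_cancel_right]; exact ch_gn _

theorem hubTree_isTree : hubTree.IsTree := by
  refine { hubTree_connected with isAcyclic := ?_ }
  rw [SimpleGraph.isAcyclic_iff_forall_adj_isBridge]
  have key : ∀ x y, Ad x y → hubTree.IsBridge s(x, y) := by
    intro x y hxy
    rcases hxy with h | ⟨h, t, j⟩ | ⟨h, t, j⟩
    · exact bridge_bridge h
    · exact bridge_near h t j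
    · rw [Sym2.eq_swap]; exact bridge_far h t j
  rintro x y (hxy | hxy)
  · exact key x y hxy
  · rw [Sym2.eq_swap]; exact key y x hxy

/-- The universal cover of `hub`. -/
def hubCover : hub.UniversalCover where
  T := TT
  tree := hubTree
  isTree := hubTree_isTree
  vert := Prod.snd
  step := stp
  vert_step := by
    rintro ⟨g, s, _ | j⟩ ⟨_ | ⟨⟨t, i⟩, c⟩, o⟩ h <;> cases o <;> (try cases c)
    all_goals simp_all [Multigraph.src, Multigraph.tgt, hub, stp]
  step_rev := by
    rintro ⟨g, s, _ | j⟩ ⟨_ | ⟨⟨t, i⟩, c⟩, o⟩ h <;> cases o <;> (try cases c)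
    all_goals simp_all [Multigraph.src, Multigraph.rev, hub, stp]
  step_inj := by
    rintro ⟨g, s, _ | j⟩ ⟨_ | ⟨⟨t, i⟩, c⟩, o⟩ ⟨_ | ⟨⟨t', i'⟩, c'⟩, o'⟩ h h' he <;> cases o <;>
      cases o' <;> (try cases c) <;> (try cases c')
    all_goals simp_all [Multigraph.src, hub, stp]
  adj_iff := by
    intro y z
    constructor
    · rintro (h | h)
      · rcases h with g | ⟨g, s, i⟩ | ⟨g, s, i⟩
        · exact ⟨(none, true), rfl, rfl⟩
        · exact ⟨(some ((s, i), false), true), rfl, rfl⟩
        · exact ⟨(some ((s, i), true), true), rfl, by simp [stp]⟩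
      · rcases h with g | ⟨g, s, i⟩ | ⟨g, s, i⟩
        · exact ⟨(none, false), rfl, rfl⟩
        · exact ⟨(some ((s, i), false), false), rfl, rfl⟩
        · exact ⟨(some ((s, i), true), false), rfl, rfl⟩
    · rintro ⟨d, h1, h2⟩
      subst h2
      obtain ⟨g, s, _ | j⟩ := y
      · obtain ⟨_ | ⟨⟨t, i⟩, c⟩, o⟩ := d
        · cases s
          · exact Or.inl (Ad.bridge g)
          · exact Or.inr (Ad.bridge g)
        · have ho : o = true := by
            cases o
            · simp [Multigraph.src, hub] at h1
            · rfl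
          subst ho
          have ht : t = s := by simpa [Multigraph.src, hub] using h1
          subst ht
          cases c
          · exact Or.inl (Ad.near g t i)
          · left
            have := Ad.far ((gn (t, i))⁻¹ * g) t i
            rwa [mul_inv_cancel_left] at this
      · obtain ⟨_ | ⟨⟨t, i⟩, c⟩, o⟩ := d
        · cases o <;> simp [Multigraph.src, hub] at h1
        · have ho : o = false := by
            cases o
            · rfl
            · simp [Multigraph.src, hub] at h1
          subst ho
          have ht : t = s ∧ i = j := by simpa [Multigraph.src, hub] using h1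
          obtain ⟨rfl, rfl⟩ := ht
          cases c
          · exact Or.inr (Ad.near g t i)
          · exact Or.inr (Ad.far g t i)
  lift x := (1, x)
  vert_lift := fun x => rfl

end Pool.Agent.TH230.Dos
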