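import Pool.Agent.TH230.Dos.Num

/-!
# Local injectivity of the moments
-/

set_option autoImplicit false

namespace Pool.Agent.TH230.Dos

open MonoidAlgebra Topology Filter

section

variable {R S : Type} [CommRing R] [CommRing S]

theorem mtr_sum {n ι : Type} [Fintype n] (s : Finset ι) (f : ι → Matrix n n (GA R)) :
    mtr (∑ i ∈ s, f i) = ∑ i ∈ s, mtr (f i) := by
  classical
  induction s using Finset.induction_on with
  | empty => simp [mtr_zero]
  | insert i s hi ih => rw [Finset.sum_insert hi, Finset.sum_insert hi, mtr_add, ih]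

theorem mtr_sc_smul {n : Type} [Fintype n] (c : R) (M : Matrix n n (GA R)) :
    mtr (sc c • M) = c * mtr M := by
  unfold mtr
  rw [Finset.mul_sum]
  refine Finset.sum_congr rfl fun i _ => ?_
  rw [Matrix.smul_apply, smul_eq_mul, tau_sc_mul]

/-- difference of two moments, in a direction -/
noncomputable def Lam (k : ℕ) (ξ ξ' η : Xi → R) : R :=
  ∑ j ∈ Finset.range k, mtr (MM ξ ^ j * LN η * MM ξ' ^ (k - 1 - j))

theorem Lam_tel (k : ℕ) (ξ ξ' : Xi → R) :
    mtr (MM ξ ^ k) - mtr (MM ξ' ^ k) = Lam k ξ ξ' (ξ - ξ') := by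
  rw [← mtr_sub, pow_sub_pow', mtr_sum, MM_sub]
  rfl

theorem Lam_diag (k : ℕ) (ξ η : Xi → R) :
    Lam (k + 1) ξ ξ η = (k + 1 : ℕ) * mtr (MM ξ ^ k * LN η) := by
  unfold Lam
  rw [Finset.sum_congr rfl (g := fun _ => mtr (MM ξ ^ k * LN η))]
  · rw [Finset.sum_const, Finset.card_range, nsmul_eq_mul]
  · intro j hj
    rw [mtr_mul_comm, ← Matrix.mul_assoc, ← pow_add]
    have : k + 1 - 1 - j + j = k := by
      have := Finset.mem_range.1 hj
      omega
    rw [this]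

theorem sc_smul_eq (c : R) (M N : Matrix V V (GA R)) : M * (sc c • N) = sc c • (M * N) := by
  ext1 i j
  rw [Matrix.mul_apply, Matrix.smul_apply, Matrix.mul_apply, smul_eq_mul, Finset.mul_sum]
  refine Finset.sum_congr rfl fun l _ => ?_
  rw [Matrix.smul_apply, smul_eq_mul, ← mul_assoc, ← mul_assoc, sc_comm]

theorem Lam_smul (k : ℕ) (ξ ξ' η : Xi → R) (c : R) : Lam k ξ ξ' (c • η) = c * Lam k ξ ξ' η := by
  unfold Lam
  rw [Finset.mul_sum]
  refine Finset.sum_congr rfl fun j _ => ?_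
  rw [LN_smul, sc_smul_eq, Matrix.smul_mul, mtr_sc_smul]

theorem Lam_map (f : R →+* S) (k : ℕ) (ξ ξ' η : Xi → R) :
    f (Lam k ξ ξ' η) = Lam k (fun x => f (ξ x)) (fun x => f (ξ' x)) (fun x => f (η x)) := by
  unfold Lam
  rw [map_sum]
  refine Finset.sum_congr rfl fun j _ => ?_
  rw [← mtr_map, ← MM_map, ← MM_map, ← LN_map]
  change mtr ((mp f).mapMatrix _) = mtr ((mp f).mapMatrix _ ^ j * (mp f).mapMatrix _ *
    (mp f).mapMatrix _ ^ (k - 1 - j))
  rw [map_mul, map_mul, map_pow, map_pow]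

end

/-- index of the universal variables -/
abbrev UV : Type := Xi ⊕ (Xi ⊕ Xi)

/-- the universal polynomial -/
noncomputable def LU (k : ℕ) : MvPolynomial UV ℝ :=
  Lam k (fun x => MvPolynomial.X (Sum.inl x)) (fun x => MvPolynomial.X (Sum.inr (Sum.inl x)))
    (fun x => MvPolynomial.X (Sum.inr (Sum.inr x)))

theorem Lam_eval (k : ℕ) (ξ ξ' η : Xi → ℝ) :
    Lam k ξ ξ' η = MvPolynomial.eval (Sum.elim ξ (Sum.elim ξ' η)) (LU k) := by
  unfold LU
  rw [Lam_map]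
  simp

theorem continuous_Lam (k : ℕ) :
    Continuous fun p : ((Xi → ℝ) × (Xi → ℝ)) × (Xi → ℝ) => Lam k p.1.1 p.1.2 p.2 := by
  simp only [Lam_eval]
  refine (MvPolynomial.continuous_eval (LU k)).comp ?_
  refine continuous_pi fun x => ?_
  rcases x with x | x | x
  · exact (continuous_apply x).comp (continuous_fst.comp continuous_fst)
  · exact (continuous_apply x).comp (continuous_snd.comp continuous_fst)
  · exact (continuous_apply x).comp continuous_snd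

/-- the directions used -/
def DS : Set (Xi → ℝ) := {η | ∀ s, η (.r (s, 0)) = 0}

theorem isClosed_DS : IsClosed DS := by
  have : DS = ⋂ s : Bool, {η : Xi → ℝ | η (.r (s, 0)) = 0} := by
    ext η
    simp [DS]
  rw [this]
  exact isClosed_iInter fun s => isClosed_eq (continuous_apply _) continuous_const

theorem exists_Lam_ne (η : Xi → ℝ) (h : η ∈ DS) (h1 : ‖η‖ = 1) : ∃ k, Lam k xi0 xi0 η ≠ 0 := by
  by_contra hc
  push Not at hc
  have h0 : ∀ k, k < 14 → mtr (Mb ^ k * LN η) = 0 := by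
    intro k _
    have := hc (k + 1)
    rw [Lam_diag] at this
    rcases mul_eq_zero.1 this with h2 | h2
    · exact absurd h2 (by positivity)
    · exact h2
  have h3 : η = 0 := funext fun x => indep η h h0 x
  rw [h3, norm_zero] at h1
  exact zero_ne_one h1

theorem nbhd_of {X : Type} [TopologicalSpace X] (x : X) (P : X → X → Prop)
    (h : ∀ᶠ p : X × X in 𝓝 (x, x), P p.1 p.2) : ∃ N ∈ 𝓝 x, ∀ a ∈ N, ∀ b ∈ N, P a b := by
  rw [nhds_prod_eq] at h
  have h' : {p : X × X | P p.1 p.2} ∈ 𝓝 x ×ˢ 𝓝 x := h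
  obtain ⟨N, hN, hN2⟩ := mem_prod_self_iff.1 h'
  exact ⟨N, hN, fun a ha b hb => hN2 (Set.mk_mem_prod ha hb)⟩

theorem near_key : ∀ᶠ p : (Xi → ℝ) × (Xi → ℝ) in 𝓝 (xi0, xi0),
    ∀ η ∈ DS ∩ Metric.sphere (0 : Xi → ℝ) 1, ∃ k, Lam k p.1 p.2 η ≠ 0 := by
  have hK : IsCompact (DS ∩ Metric.sphere (0 : Xi → ℝ) 1) :=
    (isCompact_sphere 0 1).inter_left isClosed_DS
  refine hK.eventually_forall_of_forall_eventually fun η hη => ?_
  obtain ⟨k, hk⟩ := exists_Lam_ne η hη.1 (by simpa using hη.2)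
  have := (continuous_Lam k).continuousAt (x := ((xi0, xi0), η))
  filter_upwards [this.eventually_ne hk] with p hp
  exact ⟨k, hp⟩

/-- Near the base point the moments determine the invariants, up to the two free directions. -/
theorem loc_inj : ∃ N ∈ 𝓝 xi0, ∀ ξ ∈ N, ∀ ξ' ∈ N, (∀ s, ξ (.r (s, 0)) = ξ' (.r (s, 0))) →
    (∀ n, mtr (MM ξ ^ n) = mtr (MM ξ' ^ n)) → ξ = ξ' := by
  obtain ⟨N, hN, hN2⟩ := nbhd_of xi0
    (fun a b => ∀ η ∈ DS ∩ Metric.sphere (0 : Xi → ℝ) 1, ∃ k, Lam k a b η ≠ 0) near_key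
  refine ⟨N, hN, fun ξ hξ ξ' hξ' hr hm => ?_⟩
  by_contra hne
  have hsub : ξ - ξ' ≠ 0 := sub_ne_zero.2 hne
  have hn : ‖ξ - ξ'‖ ≠ 0 := norm_ne_zero_iff.2 hsub
  have hmem : ‖ξ - ξ'‖⁻¹ • (ξ - ξ') ∈ DS ∩ Metric.sphere (0 : Xi → ℝ) 1 := by
    refine ⟨fun s => ?_, ?_⟩
    · rw [Pi.smul_apply, Pi.sub_apply, hr s, sub_self, smul_zero]
    · rw [mem_sphere_zero_iff_norm, norm_smul, norm_inv, norm_norm, inv_mul_cancel₀ hn]
  obtain ⟨k, hk⟩ := hN2 ξ hξ ξ' hξ' _ hmem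
  apply hk
  rw [Lam_smul, ← Lam_tel, hm k, sub_self, mul_zero]

end Pool.Agent.TH230.Dos
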