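import Pool.Agent.TH230.Dos.Comp

/-!
# The derivative of the moments at the base point
-/

set_option autoImplicit false

namespace Pool.Agent.TH230.Dos

open MonoidAlgebra

/-! ### Closed walks of one side -/

/-- prepend a letter to a reduced word -/
def push (c : I × Bool) (w : List (I × Bool)) : List (I × Bool) := match w with
  | [] => [c]
  | y :: t => if c.1 = y.1 ∧ c.2 = !y.2 then t else c :: y :: t

/-- the group element of a letter -/
def el (c : I × Bool) : FG := FreeGroup.mk [c]

theorem toWord_el_mul (c : I × Bool) (g : FG) : (el c * g).toWord = push c g.toWord := by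
  rw [FreeGroup.toWord_mul]
  have : (el c).toWord = [c] := by
    unfold el
    rw [FreeGroup.toWord_mk, FreeGroup.reduce_singleton]
  rw [this]
  simp only [List.cons_append, List.nil_append, FreeGroup.reduce.cons, FreeGroup.reduce_toWord]
  unfold push
  cases g.toWord <;> rfl

theorem el_true (i : I) : el (i, true) = gn i := rfl

theorem el_false (i : I) : el (i, false) = (gn i)⁻¹ := rfl

/-- weighted number of the walks with `n` steps that end with the word `w` cancelled -/
def wf (s : Bool) : ℕ → List (I × Bool) → ℤ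
  | 0, w => if w = [] then 1 else 0
  | n + 1, w => wf s n (push ((s, 0), true) w) + wf s n (push ((s, 0), false) w) +
      2 * (wf s n (push ((s, 1), true) w) + wf s n (push ((s, 1), false) w))

/-- `g + g⁻¹` for the generator `i` -/
noncomputable def gg (i : I) : GA ℝ := single (gn i) 1 + single (gn i)⁻¹ 1

/-- the walk operator of the side `s` -/
noncomputable def Tm (s : Bool) : GA ℝ := gg (s, 0) + (2 : ℝ) • gg (s, 1)

theorem tau_walk (s : Bool) (n : ℕ) (g : FG) :
    tau (Tm s ^ n * single g 1) = (wf s n g.toWord : ℝ) := by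
  induction n generalizing g with
  | zero =>
    rw [pow_zero, one_mul]
    unfold tau wf
    rw [coeff_single]
    by_cases h : g = 1
    · subst h; simp
    · rw [Finsupp.single_eq_of_ne (Ne.symm h)]
      simp [FreeGroup.toWord_eq_nil_iff, h]
  | succ n ih =>
    have e : Tm s ^ (n + 1) * single g 1 = Tm s ^ n * single (el ((s, 0), true) * g) 1 +
        Tm s ^ n * single (el ((s, 0), false) * g) 1 +
        (2 : ℝ) • (Tm s ^ n * single (el ((s, 1), true) * g) 1 +
        Tm s ^ n * single (el ((s, 1), false) * g) 1) := by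
      rw [pow_succ, mul_assoc]
      have : Tm s * single g 1 = single (el ((s, 0), true) * g) 1 +
        single (el ((s, 0), false) * g) 1 + (2 : ℝ) • (single (el ((s, 1), true) * g) 1 +
          single (el ((s, 1), false) * g) 1) := by
        simp only [Tm, gg, add_mul, smul_mul_assoc, single_mul_single, one_mul, el_true, el_false]
      rw [this]
      simp only [mul_add, mul_smul_comm]
    rw [e]
    simp only [tau_add, tau_smul, ih, toWord_el_mul, wf]
    push_cast
    ring

/-- closed walks -/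
def m0 (j : ℕ) : ℤ := match j with
  | 0 => 1
  | 2 => 10
  | 4 => 166
  | 6 => 3220
  | _ => 0

/-- walks closed by one more letter of the petal `i` -/
def n0 (i : Fin 2) (j : ℕ) : ℤ := match j with
  | 1 => if i = 0 then 2 else 4
  | 3 => if i = 0 then 38 else 64
  | 5 => if i = 0 then 788 else 1216
  | _ => 0

theorem wf_m0 : ∀ s : Bool, ∀ j : Fin 7, wf s j [] = m0 j := by decide +kernel

theorem wf_n0 : ∀ s : Bool, ∀ i : Fin 2, ∀ j : Fin 7,
    wf s j [((s, i), true)] + wf s j [((s, i), false)] = n0 i j := by decide +kernel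

theorem tau_T (s : Bool) (j : ℕ) (hj : j < 7) : tau (Tm s ^ j) = (m0 j : ℝ) := by
  have := tau_walk s j 1
  rw [← one_def, mul_one, FreeGroup.toWord_one] at this
  rw [this, wf_m0 s ⟨j, hj⟩]

theorem tau_T_gg (s : Bool) (i : Fin 2) (j : ℕ) (hj : j < 7) :
    tau (Tm s ^ j * gg (s, i)) = (n0 i j : ℝ) := by
  unfold gg
  rw [mul_add, tau_add, tau_walk, tau_walk, ← wf_n0 s i ⟨j, hj⟩]
  push_cast
  have h1 : (gn (s, i)).toWord = [((s, i), true)] := FreeGroup.toWord_of _
  have h2 : ((gn (s, i))⁻¹).toWord = [((s, i), false)] := by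
    rw [FreeGroup.toWord_inv, h1]
    rfl
  rw [h1, h2]

/-! ### The linear recursion -/

/-- integer version of the recursion -/
def nst (b z : ℤ) (f0 : ℕ → ℤ) (sr : ℕ → ℕ → ℤ) : ℕ → ℕ → ℤ × ℤ
  | 0, j => (f0 j, 0)
  | k + 1, j => (b * (nst b z f0 sr k j).1 + 6 * (nst b z f0 sr k j).2 +
      (nst b z f0 sr k (j + 1)).2 + sr k j,
      (nst b z f0 sr k j).1 + z * (nst b z f0 sr k j).2)

theorem rec_tau (T y : GA ℝ) (P Q src : ℕ → GA ℝ) (b z : ℤ) (f0 : ℕ → ℤ) (sr : ℕ → ℕ → ℤ)
    (hP : ∀ k, P (k + 1) = (b : ℝ) • P k + (sc 6 + T) * Q k + src k)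
    (hQ : ∀ k, Q (k + 1) = P k + (z : ℝ) • Q k)
    (hP0 : ∀ j, j < 7 → tau (y * T ^ j * P 0) = (f0 j : ℝ)) (hQ0 : Q 0 = 0)
    (hs : ∀ k j, 2 * j + k < 13 → tau (y * T ^ j * src k) = (sr k j : ℝ)) (k j : ℕ) :
    (2 * j + k < 14 → tau (y * T ^ j * P k) = ((nst b z f0 sr k j).1 : ℝ)) ∧
      (2 * j + k < 15 → tau (y * T ^ j * Q k) = ((nst b z f0 sr k j).2 : ℝ)) := by
  induction k generalizing j with
  | zero =>
    refine ⟨fun h => hP0 j (by omega), fun h => ?_⟩
    rw [hQ0, mul_zero]
    simp [nst]
  | succ k ih =>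
    refine ⟨fun h => ?_, fun h => ?_⟩
    · have e : y * T ^ j * P (k + 1) = (b : ℝ) • (y * T ^ j * P k) +
          (6 : ℝ) • (y * T ^ j * Q k) + y * T ^ (j + 1) * Q k + y * T ^ j * src k := by
        rw [hP, mul_add, mul_add, mul_smul_comm, add_mul, mul_add, sc_mul, mul_smul_comm, pow_succ T j]
        simp only [mul_assoc, add_assoc]
      rw [e, tau_add, tau_add, tau_add, tau_smul, tau_smul, (ih j).1 (by omega),
        (ih j).2 (by omega), (ih (j + 1)).2 (by omega), hs k j (by omega)]
      simp only [nst]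
      push_cast
      ring
    · have e : y * T ^ j * Q (k + 1) = y * T ^ j * P k + (z : ℝ) • (y * T ^ j * Q k) := by
        rw [hQ, mul_add, mul_smul_comm]
      rw [e, tau_add, tau_smul, (ih j).1 (by omega), (ih j).2 (by omega)]
      simp only [nst]
      push_cast
      ring

/-! ### The base point -/

/-- potentials of the centres -/
def bb (s : Bool) : ℤ := if s then -1 else 2

/-- potentials of the outer vertices -/
def zz (s : Bool) : ℤ := if s then 1 else 0

def rr (i : Fin 2) : ℤ := if i = 0 then 2 else 4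

def aa (i : Fin 2) : ℤ := if i = 0 then 1 else 2

/-- the base point -/
def xi0 : Xi → ℝ
  | .b (s, none) => bb s
  | .b (s, some _) => zz s
  | .e => 0
  | .r (_, i) => rr i
  | .a (_, i) => aa i

/-- the companion matrix at the base point -/
noncomputable def Mb : Matrix V V (GA ℝ) := MM xi0

theorem kk_xi0 (s : Bool) (i : Fin 2) : kk xi0 (s, i) = sc (rr i : ℝ) + (aa i : ℝ) • gg (s, i) := by
  simp [kk, xi0, gg]

theorem kk_sum (s : Bool) : kk xi0 (s, 0) + kk xi0 (s, 1) = sc 6 + Tm s := by
  rw [kk_xi0, kk_xi0]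
  have h : (sc (6 : ℝ) : GA ℝ) = sc 2 + sc 4 := by
    rw [← single_add]; norm_num
  simp only [rr, aa, Tm, h]
  norm_num
  abel

theorem row_false (X : Matrix V V (GA ℝ)) (w : V) : (Mb * X) (false, none) w =
    (bb false : ℝ) • X (false, none) w + (kk xi0 (false, 0) * X (false, some 0) w +
      kk xi0 (false, 1) * X (false, some 1) w) := by
  rw [Matrix.mul_apply, Fintype.sum_prod_type]
  simp only [Fintype.sum_bool, Fintype.sum_option, Fin.sum_univ_two]
  simp [Mb, MM, LN, C0, xi0, sc_mul]

theorem row_true (X : Matrix V V (GA ℝ)) (w : V) : (Mb * X) (true, none) w =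
    (bb true : ℝ) • X (true, none) w + (kk xi0 (true, 0) * X (true, some 0) w +
      kk xi0 (true, 1) * X (true, some 1) w) + X (false, none) w := by
  rw [Matrix.mul_apply, Fintype.sum_prod_type]
  simp only [Fintype.sum_bool, Fintype.sum_option, Fin.sum_univ_two]
  simp [Mb, MM, LN, C0, xi0, sc_mul]

theorem row_outer (X : Matrix V V (GA ℝ)) (s : Bool) (i : Fin 2) (w : V) :
    (Mb * X) (s, some i) w = X (s, none) w + (zz s : ℝ) • X (s, some i) w := by
  rw [Matrix.mul_apply, Fintype.sum_prod_type]
  simp only [Fintype.sum_bool, Fintype.sum_option, Fin.sum_univ_two]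
  cases s <;> fin_cases i <;> simp [Mb, MM, LN, C0, xi0, sc_mul]

/-! ### Columns of the powers of the companion matrix -/

/-- first column of a side -/
noncomputable def pq (s : Bool) : ℕ → GA ℝ × GA ℝ
  | 0 => (1, 0)
  | k + 1 => ((bb s : ℝ) • (pq s k).1 + (sc 6 + Tm s) * (pq s k).2 + 0,
      (pq s k).1 + (zz s : ℝ) • (pq s k).2)

/-- columns of the outer vertices -/
noncomputable def RS (s : Bool) (i : Fin 2) : ℕ → GA ℝ × GA ℝ
  | 0 => (0, 0)
  | k + 1 => ((bb s : ℝ) • (RS s i k).1 + (sc 6 + Tm s) * (RS s i k).2 +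
        ((zz s : ℝ) ^ k) • kk xi0 (s, i),
      (RS s i k).1 + (zz s : ℝ) • (RS s i k).2)

/-- the part of the first column of the side `false` that lies on the side `true` -/
noncomputable def rt : ℕ → GA ℝ × GA ℝ
  | 0 => (0, 0)
  | k + 1 => ((bb true : ℝ) • (rt k).1 + (sc 6 + Tm true) * (rt k).2 + (pq false k).1,
      (rt k).1 + (zz true : ℝ) • (rt k).2)

theorem col_true (k : ℕ) : (Mb ^ k) (true, none) (true, none) = (pq true k).1 ∧
    (∀ i, (Mb ^ k) (true, some i) (true, none) = (pq true k).2) ∧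
    (Mb ^ k) (false, none) (true, none) = 0 ∧
    (∀ i, (Mb ^ k) (false, some i) (true, none) = 0) := by
  induction k with
  | zero => simp [pq, Matrix.one_apply]
  | succ k ih =>
    obtain ⟨h1, h2, h3, h4⟩ := ih
    rw [pow_succ']
    refine ⟨?_, fun i => ?_, ?_, fun i => ?_⟩
    · rw [row_true, h1, h2, h2, h3, ← add_mul, kk_sum]
      rfl
    · rw [row_outer, h1, h2]
      rfl
    · rw [row_false, h3, h4, h4]
      simp
    · rw [row_outer, h3, h4]
      simp

theorem col_false (k : ℕ) : (Mb ^ k) (false, none) (false, none) = (pq false k).1 ∧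
    (∀ i, (Mb ^ k) (false, some i) (false, none) = (pq false k).2) ∧
    (Mb ^ k) (true, none) (false, none) = (rt k).1 ∧
    (∀ i, (Mb ^ k) (true, some i) (false, none) = (rt k).2) := by
  induction k with
  | zero => simp [pq, rt, Matrix.one_apply]
  | succ k ih =>
    obtain ⟨h1, h2, h3, h4⟩ := ih
    rw [pow_succ']
    refine ⟨?_, fun i => ?_, ?_, fun i => ?_⟩
    · rw [row_false, h1, h2, h2, ← add_mul, kk_sum]
      simp [pq]
    · rw [row_outer, h1, h2]
      rfl
    · rw [row_true, h1, h3, h4, h4, ← add_mul, kk_sum]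
      rfl
    · rw [row_outer, h3, h4]
      rfl

theorem col_outer_true (i : Fin 2) (k : ℕ) : (Mb ^ k) (true, none) (true, some i) = (RS true i k).1 ∧
    (∀ j, (Mb ^ k) (true, some j) (true, some i) =
      (RS true i k).2 + if j = i then sc ((zz true : ℝ) ^ k) else 0) ∧
    (Mb ^ k) (false, none) (true, some i) = 0 ∧
    (∀ j, (Mb ^ k) (false, some j) (true, some i) = 0) := by
  induction k with
  | zero =>
    refine ⟨by simp [RS, Matrix.one_apply], fun j => ?_, by simp [Matrix.one_apply],
      fun j => by simp [Matrix.one_apply]⟩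
    by_cases h : j = i
    · subst h; simp [RS, Matrix.one_apply, one_def]
    · simp [RS, Matrix.one_apply, h]
  | succ k ih =>
    obtain ⟨h1, h2, h3, h4⟩ := ih
    rw [pow_succ']
    refine ⟨?_, fun j => ?_, ?_, fun j => ?_⟩
    · rw [row_true, h1, h2, h2, h3, RS, ← kk_sum]
      fin_cases i
      · simp [mul_add, add_mul, mul_sc]
        abel
      · simp [mul_add, add_mul, mul_sc]
        abel
    · rw [row_outer, h1, h2, RS]
      by_cases h : j = i
      · simp only [h, if_true]
        rw [smul_add, smul_single, smul_eq_mul, ← pow_succ', add_assoc]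
      · simp [h]
    · rw [row_false, h3, h4, h4]
      simp
    · rw [row_outer, h3, h4]
      simp

theorem col_outer_false (i : Fin 2) (k : ℕ) :
    (Mb ^ k) (false, none) (false, some i) = (RS false i k).1 ∧
    (∀ j, (Mb ^ k) (false, some j) (false, some i) =
      (RS false i k).2 + if j = i then sc ((zz false : ℝ) ^ k) else 0) := by
  induction k with
  | zero =>
    refine ⟨by simp [RS, Matrix.one_apply], fun j => ?_⟩
    by_cases h : j = i
    · subst h; simp [RS, Matrix.one_apply, one_def]
    · simp [RS, Matrix.one_apply, h]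
  | succ k ih =>
    obtain ⟨h1, h2⟩ := ih
    rw [pow_succ']
    refine ⟨?_, fun j => ?_⟩
    · rw [row_false, h1, h2, h2, RS, ← kk_sum]
      fin_cases i
      · simp [mul_add, add_mul, mul_sc]
        abel
      · simp [mul_add, add_mul, mul_sc]
        abel
    · rw [row_outer, h1, h2, RS]
      by_cases h : j = i
      · simp only [h, if_true]
        rw [smul_add, smul_single, smul_eq_mul, ← pow_succ', add_assoc]
      · simp [h]

/-! ### Freeness of the two sides -/

/-- kill the generators of the side `true` -/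
noncomputable def pr : FG →* FG := FreeGroup.lift fun i => if i.1 = false then gn i else 1

theorem coeff_mul_ne (x y : GA ℝ) (g : FG) (h : (x * y).coeff g ≠ 0) :
    ∃ a, x.coeff a ≠ 0 ∧ y.coeff (a⁻¹ * g) ≠ 0 := by
  rw [coeff_mul_apply_left] at h
  obtain ⟨a, _, ha⟩ := Finset.exists_ne_zero_of_sum_ne_zero h
  exact ⟨a, left_ne_zero_of_mul ha, right_ne_zero_of_mul ha⟩

/-- supported on the kernel of the projection -/
def S1 (x : GA ℝ) : Prop := ∀ g, x.coeff g ≠ 0 → pr g = 1

/-- supported on the subgroup of the side `false` -/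
def S2 (x : GA ℝ) : Prop := ∀ g, x.coeff g ≠ 0 → pr g = g

theorem S1.mul {x y : GA ℝ} (hx : S1 x) (hy : S1 y) : S1 (x * y) := by
  intro g hg
  obtain ⟨a, ha, hb⟩ := coeff_mul_ne x y g hg
  have := hy _ hb
  rw [map_mul, map_inv, hx a ha] at this
  simpa using this

theorem S2.mul {x y : GA ℝ} (hx : S2 x) (hy : S2 y) : S2 (x * y) := by
  intro g hg
  obtain ⟨a, ha, hb⟩ := coeff_mul_ne x y g hg
  have := hy _ hb
  rw [map_mul, map_inv, hx a ha] at this
  simpa using this

theorem S2.add {x y : GA ℝ} (hx : S2 x) (hy : S2 y) : S2 (x + y) := by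
  intro g hg
  by_cases h : x.coeff g = 0
  · refine hy g fun h' => hg ?_
    rw [coeff_add, Finsupp.add_apply, h, h', add_zero]
  · exact hx g h

theorem S1.add {x y : GA ℝ} (hx : S1 x) (hy : S1 y) : S1 (x + y) := by
  intro g hg
  by_cases h : x.coeff g = 0
  · refine hy g fun h' => hg ?_
    rw [coeff_add, Finsupp.add_apply, h, h', add_zero]
  · exact hx g h

theorem S1.smul {x : GA ℝ} (c : ℝ) (hx : S1 x) : S1 (c • x) := by
  intro g hg
  refine hx g fun h => hg ?_
  rw [coeff_smul_apply, h, smul_zero]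

theorem S2.smul {x : GA ℝ} (c : ℝ) (hx : S2 x) : S2 (c • x) := by
  intro g hg
  refine hx g fun h => hg ?_
  rw [coeff_smul_apply, h, smul_zero]

theorem S1.single {g : FG} (hg : pr g = 1) (r : ℝ) : S1 (MonoidAlgebra.single g r) := by
  intro h hh
  rw [coeff_single] at hh
  by_cases e : h = g
  · rw [e, hg]
  · exact absurd (Finsupp.single_eq_of_ne e) hh

theorem S2.single {g : FG} (hg : pr g = g) (r : ℝ) : S2 (MonoidAlgebra.single g r) := by
  intro h hh
  rw [coeff_single] at hh
  by_cases e : h = g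
  · rw [e, hg]
  · exact absurd (Finsupp.single_eq_of_ne e) hh

theorem S1_T : S1 (Tm true) := by
  have h : ∀ i : Fin 2, S1 (gg (true, i)) := by
    intro i
    have h1 : pr (gn (true, i)) = 1 := by simp [pr]
    have h2 : pr (gn (true, i))⁻¹ = 1 := by rw [map_inv, h1, inv_one]
    exact (S1.single h1 1).add (S1.single h2 1)
  exact (h 0).add ((h 1).smul 2)

theorem S2_T : S2 (Tm false) := by
  have h : ∀ i : Fin 2, S2 (gg (false, i)) := by
    intro i
    have h1 : pr (gn (false, i)) = gn (false, i) := by simp [pr]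
    have h2 : pr (gn (false, i))⁻¹ = (gn (false, i))⁻¹ := by rw [map_inv, h1]
    exact (S2.single h1 1).add (S2.single h2 1)
  exact (h 0).add ((h 1).smul 2)

theorem S1_pow (j : ℕ) : S1 (Tm true ^ j) := by
  induction j with
  | zero => rw [pow_zero]; exact S1.single (map_one _) 1
  | succ j ih => rw [pow_succ]; exact ih.mul S1_T

theorem S2_zero : S2 0 := fun g hg => absurd rfl hg

theorem S2_pq (k : ℕ) : S2 (pq false k).1 ∧ S2 (pq false k).2 := by
  induction k with
  | zero => exact ⟨S2.single (map_one _) 1, S2_zero⟩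
  | succ k ih =>
    refine ⟨((ih.1.smul _).add (((S2.single (map_one _) 6).add S2_T).mul ih.2)).add S2_zero,
      ih.1.add (ih.2.smul _)⟩

theorem tau_free {x y : GA ℝ} (hx : S1 x) (hy : S2 y) : tau (x * y) = tau x * tau y := by
  unfold tau
  rw [coeff_mul_apply_left]
  have : ∀ h ∈ x.coeff.support, h ≠ 1 → x.coeff h * y.coeff (h⁻¹ * 1) = 0 := by
    intro h hh hne
    by_contra hc
    have h1 := hx h (left_ne_zero_of_mul hc)
    have h2 := hy _ (right_ne_zero_of_mul hc)
    rw [mul_one, map_inv, h1, inv_one] at h2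
    exact hne (inv_eq_one.1 h2.symm)
  rw [Finsupp.sum, Finset.sum_eq_single 1 this]
  · simp
  · intro h
    rw [Finsupp.notMem_support_iff.1 h, zero_mul]

/-! ### Values -/

def vp (s : Bool) (k : ℕ) : ℤ := (nst (bb s) (zz s) m0 (fun _ _ => 0) k 0).1

def vq (s : Bool) (k : ℕ) : ℤ := (nst (bb s) (zz s) m0 (fun _ _ => 0) k 0).2

def vg (s : Bool) (i : Fin 2) (k : ℕ) : ℤ := (nst (bb s) (zz s) (n0 i) (fun _ _ => 0) k 0).2

def vd (s : Bool) (i : Fin 2) (k : ℕ) : ℤ := zz s ^ k + (nst (bb s) (zz s) (fun _ => 0)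
  (fun k j => zz s ^ k * (rr i * m0 j + aa i * n0 i j)) k 0).2

def ve (k : ℕ) : ℤ := (nst (bb true) (zz true) (fun _ => 0) (fun k j => m0 j * vp false k) k 0).1

theorem tau_pq (s : Bool) (k : ℕ) (hk : k < 14) :
    tau (pq s k).1 = (vp s k : ℝ) ∧ tau (pq s k).2 = (vq s k : ℝ) := by
  have := rec_tau (Tm s) 1 (fun k => (pq s k).1) (fun k => (pq s k).2) (fun _ => 0) (bb s) (zz s)
    m0 (fun _ _ => 0) (fun k => rfl) (fun k => rfl)
    (fun j hj => by simp [pq, tau_T s j hj]) rfl (fun k j _ => by simp) k 0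
  refine ⟨?_, ?_⟩
  · have h1 := this.1 (by omega)
    rw [pow_zero, mul_one, one_mul] at h1
    exact h1
  · have h1 := this.2 (by omega)
    rw [pow_zero, mul_one, one_mul] at h1
    exact h1

theorem tau_pq_gg (s : Bool) (i : Fin 2) (k : ℕ) (hk : k < 14) :
    tau ((pq s k).2 * gg (s, i)) = (vg s i k : ℝ) := by
  have := rec_tau (Tm s) (gg (s, i)) (fun k => (pq s k).1) (fun k => (pq s k).2) (fun _ => 0)
    (bb s) (zz s) (n0 i) (fun _ _ => 0) (fun k => rfl) (fun k => rfl)
    (fun j hj => by
      change tau (gg (s, i) * Tm s ^ j * 1) = _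
      rw [mul_one, tau_mul_comm, tau_T_gg s i j hj]) rfl (fun k j _ => by simp) k 0
  have h1 := this.2 (by omega)
  rw [pow_zero, mul_one] at h1
  rw [tau_mul_comm]
  exact h1

theorem tau_RS (s : Bool) (i : Fin 2) (k : ℕ) (hk : k < 14) :
    tau ((RS s i k).2 + sc ((zz s : ℝ) ^ k)) = (vd s i k : ℝ) := by
  have := rec_tau (Tm s) 1 (fun k => (RS s i k).1) (fun k => (RS s i k).2)
    (fun k => ((zz s : ℝ) ^ k) • kk xi0 (s, i))
    (bb s) (zz s) (fun _ => 0) (fun k j => zz s ^ k * (rr i * m0 j + aa i * n0 i j))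
    (fun k => rfl) (fun k => rfl)
    (fun j hj => by simp [RS]) rfl (fun k j hkj => by
      rw [one_mul, mul_smul_comm, kk_xi0, mul_add, mul_smul_comm, tau_smul, tau_add, tau_smul,
        tau_mul_sc, tau_T s j (by omega), tau_T_gg s i j (by omega)]
      push_cast
      ring) k 0
  have h1 := this.2 (by omega)
  rw [pow_zero, mul_one, one_mul] at h1
  rw [tau_add, tau_sc, vd]
  change tau (RS s i k).2 = _ at h1
  rw [h1]
  push_cast
  ring

theorem tau_rt (k : ℕ) (hk : k < 14) : tau (rt k).1 = (ve k : ℝ) := by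
  have := rec_tau (Tm true) 1 (fun k => (rt k).1) (fun k => (rt k).2)
    (fun k => (pq false k).1)
    (bb true) (zz true) (fun _ => 0) (fun k j => m0 j * vp false k)
    (fun k => rfl) (fun k => rfl)
    (fun j hj => by simp [rt]) rfl (fun k j hkj => by
      rw [one_mul, tau_free (S1_pow j) (S2_pq k).1, tau_T true j (by omega),
        (tau_pq false k (by omega)).1]
      push_cast
      ring) k 0
  have h1 := this.1 (by omega)
  rw [pow_zero, mul_one, one_mul] at h1
  exact h1

theorem mtr_mul_LN (X : Matrix V V (GA ℝ)) (η : Xi → ℝ) : mtr (X * LN η) =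
    η (.b (false, none)) * tau (X (false, none) (false, none)) +
    η (.b (true, none)) * tau (X (true, none) (true, none)) +
    η .e * tau (X (true, none) (false, none)) +
    ∑ s : Bool, ∑ i : Fin 2, (η (.r (s, i)) * tau (X (s, some i) (s, none)) +
      η (.a (s, i)) * tau (X (s, some i) (s, none) * gg (s, i)) +
      η (.b (s, some i)) * tau (X (s, some i) (s, some i))) := by
  have hk : ∀ (Y : GA ℝ) (s : Bool) (i : Fin 2), tau (Y * kk η (s, i)) =
      η (.r (s, i)) * tau Y + η (.a (s, i)) * tau (Y * gg (s, i)) := by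
    intro Y s i
    have : kk η (s, i) = sc (η (.r (s, i))) + (η (.a (s, i))) • gg (s, i) := by
      simp [kk, gg]
    rw [this, mul_add, mul_smul_comm, tau_add, tau_smul, tau_mul_sc]
  unfold mtr
  simp only [Matrix.mul_apply, Fintype.sum_prod_type, Fintype.sum_bool, Fintype.sum_option,
    Fin.sum_univ_two]
  simp [LN, tau_mul_sc, hk]
  ring

theorem trace_formula (η : Xi → ℝ) (k : ℕ) (hk : k < 14) : mtr (Mb ^ k * LN η) =
    η (.b (false, none)) * vp false k + η (.b (true, none)) * vp true k + η .e * ve k +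
    ((η (.r (false, 0)) * vq false k + η (.a (false, 0)) * vg false 0 k +
      η (.b (false, some 0)) * vd false 0 k) +
    (η (.r (false, 1)) * vq false k + η (.a (false, 1)) * vg false 1 k +
      η (.b (false, some 1)) * vd false 1 k) +
    ((η (.r (true, 0)) * vq true k + η (.a (true, 0)) * vg true 0 k +
      η (.b (true, some 0)) * vd true 0 k) +
    (η (.r (true, 1)) * vq true k + η (.a (true, 1)) * vg true 1 k +
      η (.b (true, some 1)) * vd true 1 k))) := by
  obtain ⟨a1, a2, a3, a4⟩ := col_true k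
  obtain ⟨b1, b2, b3, b4⟩ := col_false k
  have c1 : ∀ i, tau ((Mb ^ k) (true, some i) (true, some i)) = (vd true i k : ℝ) := by
    intro i
    rw [(col_outer_true i k).2.1 i, if_pos rfl, tau_RS true i k hk]
  have c2 : ∀ i, tau ((Mb ^ k) (false, some i) (false, some i)) = (vd false i k : ℝ) := by
    intro i
    rw [(col_outer_false i k).2 i, if_pos rfl, tau_RS false i k hk]
  rw [mtr_mul_LN, a1, b1, b3, (tau_pq _ k hk).1, (tau_pq _ k hk).1, tau_rt k hk]
  simp only [Fintype.sum_bool, Fin.sum_univ_two, a2, b2, c1, c2, tau_pq_gg _ _ k hk,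
    (tau_pq _ k hk).2]
  ring

theorem tab0 : vp false 0 = 1 ∧ vp true 0 = 1 ∧ vd false 0 0 = 1 ∧ vd false 1 0 = 1 ∧ vd true 0 0 = 1 ∧ vd true 1 0 = 1 ∧ ve 0 = 0 ∧ vq false 0 = 0 ∧ vq true 0 = 0 ∧ vg false 0 0 = 0 ∧ vg false 1 0 = 0 ∧ vg true 0 0 = 0 ∧ vg true 1 0 = 0 := by
  decide +kernel

theorem tab1 : vp false 1 = 2 ∧ vp true 1 = -1 ∧ vd false 0 1 = 0 ∧ vd false 1 1 = 0 ∧ vd true 0 1 = 1 ∧ vd true 1 1 = 1 ∧ ve 1 = 1 ∧ vq false 1 = 1 ∧ vq true 1 = 1 ∧ vg false 0 1 = 0 ∧ vg false 1 1 = 0 ∧ vg true 0 1 = 0 ∧ vg true 1 1 = 0 := by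
  decide +kernel

theorem tab2 : vp false 2 = 10 ∧ vp true 2 = 7 ∧ vd false 0 2 = 2 ∧ vd false 1 2 = 4 ∧ vd true 0 2 = 3 ∧ vd true 1 2 = 5 ∧ ve 2 = 1 ∧ vq false 2 = 2 ∧ vq true 2 = 0 ∧ vg false 0 2 = 0 ∧ vg false 1 2 = 0 ∧ vg true 0 2 = 0 ∧ vg true 1 2 = 0 := by
  decide +kernel

theorem tab3 : vp false 3 = 32 ∧ vp true 3 = -7 ∧ vd false 0 3 = 4 ∧ vd false 1 3 = 8 ∧ vd true 0 3 = 3 ∧ vd true 1 3 = 5 ∧ ve 3 = 15 ∧ vq false 3 = 10 ∧ vq true 3 = 7 ∧ vg false 0 3 = 2 ∧ vg false 1 3 = 4 ∧ vg true 0 3 = 2 ∧ vg true 1 3 = 4 := by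
  decide +kernel

theorem tab4 : vp false 4 = 134 ∧ vp true 4 = 59 ∧ vd false 0 4 = 22 ∧ vd false 1 4 = 48 ∧ vd true 0 4 = 19 ∧ vd true 1 4 = 41 ∧ ve 4 = 29 ∧ vq false 4 = 32 ∧ vq true 4 = 0 ∧ vg false 0 4 = 8 ∧ vg false 1 4 = 16 ∧ vg true 0 4 = 0 ∧ vg true 1 4 = 0 := by
  decide +kernel

theorem tab5 : vp false 5 = 500 ∧ vp true 5 = -59 ∧ vd false 0 5 = 72 ∧ vd false 1 5 = 160 ∧ vd true 0 5 = 19 ∧ vd true 1 5 = 41 ∧ ve 5 = 217 ∧ vq false 5 = 134 ∧ vq true 5 = 59 ∧ vg false 0 5 = 48 ∧ vg false 1 5 = 96 ∧ vg true 0 5 = 28 ∧ vg true 1 5 = 56 := by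
  decide +kernel

theorem tab6 : vp false 6 = 2044 ∧ vp true 6 = 553 ∧ vd false 0 6 = 316 ∧ vd false 1 6 = 728 ∧ vd true 0 6 = 165 ∧ vd true 1 6 = 389 ∧ ve 6 = 579 ∧ vq false 6 = 500 ∧ vq true 6 = 0 ∧ vg false 0 6 = 208 ∧ vg false 1 6 = 416 ∧ vg true 0 6 = 0 ∧ vg true 1 6 = 0 := by
  decide +kernel

theorem tab7 : vp false 7 = 8128 ∧ vp true 7 = -553 ∧ vd false 0 7 = 1208 ∧ vd false 1 7 = 2832 ∧ vd true 0 7 = 165 ∧ vd true 1 7 = 389 ∧ ve 7 = 3283 ∧ vq false 7 = 2044 ∧ vq true 7 = 553 ∧ vg false 0 7 = 990 ∧ vg false 1 7 = 1968 ∧ vg true 0 7 = 332 ∧ vg true 1 7 = 652 := by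
  decide +kernel

theorem tab8 : vp false 8 = 33446 ∧ vp true 8 = 5507 ∧ vd false 0 8 = 5078 ∧ vd false 1 8 = 12112 ∧ vd true 0 8 = 1603 ∧ vd true 1 8 = 3905 ∧ ve 8 = 10497 ∧ vq false 8 = 8128 ∧ vq true 8 = 0 ∧ vg false 0 8 = 4336 ∧ vg false 1 8 = 8576 ∧ vg true 0 8 = 0 ∧ vg true 1 8 = 0 := by
  decide +kernel

theorem tab9 : vp false 9 = 137148 ∧ vp true 9 = -5507 ∧ vd false 0 9 = 20592 ∧ vd false 1 9 = 49664 ∧ vd true 0 9 = 1603 ∧ vd true 1 9 = 3905 ∧ ve 9 = 52075 ∧ vq false 9 = 33446 ∧ vq true 9 = 5507 ∧ vg false 0 9 = 19456 ∧ vg false 1 9 = 38144 ∧ vg true 0 9 = 3808 ∧ vg true 1 9 = 7280 := by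
  decide +kernel

theorem tab10 : vp false 10 = 570716 ∧ vp true 10 = 56917 ∧ vd false 0 10 = 86348 ∧ vd false 1 10 = 210072 ∧ vd true 0 10 = 16425 ∧ vd true 1 10 = 40493 ∧ ve 10 = 185557 ∧ vq false 10 = 137148 ∧ vq true 10 = 0 ∧ vg false 0 10 = 85216 ∧ vg false 1 10 = 165632 ∧ vg true 0 10 = 0 ∧ vg true 1 10 = 0 := by
  decide +kernel

theorem tab11 : vp false 11 = 2380800 ∧ vp true 11 = -56917 ∧ vd false 0 11 = 359512 ∧ vd false 1 11 = 879856 ∧ vd true 0 11 = 16425 ∧ vd true 1 11 = 40493 ∧ ve 11 = 859269 ∧ vq false 11 = 570716 ∧ vq true 11 = 56917 ∧ vg false 0 11 = 375684 ∧ vg false 1 11 = 722688 ∧ vg true 0 11 = 43418 ∧ vg true 1 11 = 80596 := by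
  decide +kernel

theorem tab13 : vp false 13 = 42203784 ∧ vp true 13 = -603029 ∧ vd false 0 13 = 6405936 ∧ vd false 1 13 = 15783936 ∧ vd true 0 13 = 173677 ∧ vd true 1 13 = 429353 ∧ ve 13 = 14628805 ∧ vq false 13 = 10006956 ∧ vq true 13 = 603029 ∧ vg false 0 13 = 7211104 ∧ vg false 1 13 = 13577216 ∧ vg true 0 13 = 495460 ∧ vg true 1 13 = 893480 := by
  decide +kernel


theorem indep (η : Xi → ℝ) (h0 : ∀ s, η (.r (s, 0)) = 0)
    (h : ∀ k, k < 14 → mtr (Mb ^ k * LN η) = 0) (x : Xi) : η x = 0 := by
  have e0 : (1) * η (.b (false, none)) + (1) * η (.b (true, none)) + (1) * η (.b (false, some 0)) + (1) * η (.b (false, some 1)) + (1) * η (.b (true, some 0)) + (1) * η (.b (true, some 1)) = 0 := by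
    have h1 := h 0 (by norm_num)
    rw [trace_formula η 0 (by norm_num), h0, h0] at h1
    obtain ⟨t1, t2, t3, t4, t5, t6, t7, t8, t9, t10, t11, t12, t13⟩ := tab0
    rw [t1, t2, t3, t4, t5, t6, t7, t8, t9, t10, t11, t12, t13] at h1
    push_cast at h1
    linear_combination h1
  have e1 : (2) * η (.b (false, none)) + (-1) * η (.b (true, none)) + (1) * η (.b (true, some 0)) + (1) * η (.b (true, some 1)) + (1) * η .e + (1) * η (.r (false, 1)) + (1) * η (.r (true, 1)) = 0 := by
    have h1 := h 1 (by norm_num)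
    rw [trace_formula η 1 (by norm_num), h0, h0] at h1
    obtain ⟨t1, t2, t3, t4, t5, t6, t7, t8, t9, t10, t11, t12, t13⟩ := tab1
    rw [t1, t2, t3, t4, t5, t6, t7, t8, t9, t10, t11, t12, t13] at h1
    push_cast at h1
    linear_combination h1
  have e2 : (10) * η (.b (false, none)) + (7) * η (.b (true, none)) + (2) * η (.b (false, some 0)) + (4) * η (.b (false, some 1)) + (3) * η (.b (true, some 0)) + (5) * η (.b (true, some 1)) + (1) * η .e + (2) * η (.r (false, 1)) = 0 := by
    have h1 := h 2 (by norm_num)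
    rw [trace_formula η 2 (by norm_num), h0, h0] at h1
    obtain ⟨t1, t2, t3, t4, t5, t6, t7, t8, t9, t10, t11, t12, t13⟩ := tab2
    rw [t1, t2, t3, t4, t5, t6, t7, t8, t9, t10, t11, t12, t13] at h1
    push_cast at h1
    linear_combination h1
  have e3 : (32) * η (.b (false, none)) + (-7) * η (.b (true, none)) + (4) * η (.b (false, some 0)) + (8) * η (.b (false, some 1)) + (3) * η (.b (true, some 0)) + (5) * η (.b (true, some 1)) + (15) * η .e + (10) * η (.r (false, 1)) + (7) * η (.r (true, 1)) + (2) * η (.a (false, 0)) + (4) * η (.a (false, 1)) + (2) * η (.a (true, 0)) + (4) * η (.a (true, 1)) = 0 := by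
    have h1 := h 3 (by norm_num)
    rw [trace_formula η 3 (by norm_num), h0, h0] at h1
    obtain ⟨t1, t2, t3, t4, t5, t6, t7, t8, t9, t10, t11, t12, t13⟩ := tab3
    rw [t1, t2, t3, t4, t5, t6, t7, t8, t9, t10, t11, t12, t13] at h1
    push_cast at h1
    linear_combination h1
  have e4 : (134) * η (.b (false, none)) + (59) * η (.b (true, none)) + (22) * η (.b (false, some 0)) + (48) * η (.b (false, some 1)) + (19) * η (.b (true, some 0)) + (41) * η (.b (true, some 1)) + (29) * η .e + (32) * η (.r (false, 1)) + (8) * η (.a (false, 0)) + (16) * η (.a (false, 1)) = 0 := by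
    have h1 := h 4 (by norm_num)
    rw [trace_formula η 4 (by norm_num), h0, h0] at h1
    obtain ⟨t1, t2, t3, t4, t5, t6, t7, t8, t9, t10, t11, t12, t13⟩ := tab4
    rw [t1, t2, t3, t4, t5, t6, t7, t8, t9, t10, t11, t12, t13] at h1
    push_cast at h1
    linear_combination h1
  have e5 : (500) * η (.b (false, none)) + (-59) * η (.b (true, none)) + (72) * η (.b (false, some 0)) + (160) * η (.b (false, some 1)) + (19) * η (.b (true, some 0)) + (41) * η (.b (true, some 1)) + (217) * η .e + (134) * η (.r (false, 1)) + (59) * η (.r (true, 1)) + (48) * η (.a (false, 0)) + (96) * η (.a (false, 1)) + (28) * η (.a (true, 0)) + (56) * η (.a (true, 1)) = 0 := by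
    have h1 := h 5 (by norm_num)
    rw [trace_formula η 5 (by norm_num), h0, h0] at h1
    obtain ⟨t1, t2, t3, t4, t5, t6, t7, t8, t9, t10, t11, t12, t13⟩ := tab5
    rw [t1, t2, t3, t4, t5, t6, t7, t8, t9, t10, t11, t12, t13] at h1
    push_cast at h1
    linear_combination h1
  have e6 : (2044) * η (.b (false, none)) + (553) * η (.b (true, none)) + (316) * η (.b (false, some 0)) + (728) * η (.b (false, some 1)) + (165) * η (.b (true, some 0)) + (389) * η (.b (true, some 1)) + (579) * η .e + (500) * η (.r (false, 1)) + (208) * η (.a (false, 0)) + (416) * η (.a (false, 1)) = 0 := by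
    have h1 := h 6 (by norm_num)
    rw [trace_formula η 6 (by norm_num), h0, h0] at h1
    obtain ⟨t1, t2, t3, t4, t5, t6, t7, t8, t9, t10, t11, t12, t13⟩ := tab6
    rw [t1, t2, t3, t4, t5, t6, t7, t8, t9, t10, t11, t12, t13] at h1
    push_cast at h1
    linear_combination h1
  have e7 : (8128) * η (.b (false, none)) + (-553) * η (.b (true, none)) + (1208) * η (.b (false, some 0)) + (2832) * η (.b (false, some 1)) + (165) * η (.b (true, some 0)) + (389) * η (.b (true, some 1)) + (3283) * η .e + (2044) * η (.r (false, 1)) + (553) * η (.r (true, 1)) + (990) * η (.a (false, 0)) + (1968) * η (.a (false, 1)) + (332) * η (.a (true, 0)) + (652) * η (.a (true, 1)) = 0 := by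
    have h1 := h 7 (by norm_num)
    rw [trace_formula η 7 (by norm_num), h0, h0] at h1
    obtain ⟨t1, t2, t3, t4, t5, t6, t7, t8, t9, t10, t11, t12, t13⟩ := tab7
    rw [t1, t2, t3, t4, t5, t6, t7, t8, t9, t10, t11, t12, t13] at h1
    push_cast at h1
    linear_combination h1
  have e8 : (33446) * η (.b (false, none)) + (5507) * η (.b (true, none)) + (5078) * η (.b (false, some 0)) + (12112) * η (.b (false, some 1)) + (1603) * η (.b (true, some 0)) + (3905) * η (.b (true, some 1)) + (10497) * η .e + (8128) * η (.r (false, 1)) + (4336) * η (.a (false, 0)) + (8576) * η (.a (false, 1)) = 0 := by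
    have h1 := h 8 (by norm_num)
    rw [trace_formula η 8 (by norm_num), h0, h0] at h1
    obtain ⟨t1, t2, t3, t4, t5, t6, t7, t8, t9, t10, t11, t12, t13⟩ := tab8
    rw [t1, t2, t3, t4, t5, t6, t7, t8, t9, t10, t11, t12, t13] at h1
    push_cast at h1
    linear_combination h1
  have e9 : (137148) * η (.b (false, none)) + (-5507) * η (.b (true, none)) + (20592) * η (.b (false, some 0)) + (49664) * η (.b (false, some 1)) + (1603) * η (.b (true, some 0)) + (3905) * η (.b (true, some 1)) + (52075) * η .e + (33446) * η (.r (false, 1)) + (5507) * η (.r (true, 1)) + (19456) * η (.a (false, 0)) + (38144) * η (.a (false, 1)) + (3808) * η (.a (true, 0)) + (7280) * η (.a (true, 1)) = 0 := by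
    have h1 := h 9 (by norm_num)
    rw [trace_formula η 9 (by norm_num), h0, h0] at h1
    obtain ⟨t1, t2, t3, t4, t5, t6, t7, t8, t9, t10, t11, t12, t13⟩ := tab9
    rw [t1, t2, t3, t4, t5, t6, t7, t8, t9, t10, t11, t12, t13] at h1
    push_cast at h1
    linear_combination h1
  have e10 : (570716) * η (.b (false, none)) + (56917) * η (.b (true, none)) + (86348) * η (.b (false, some 0)) + (210072) * η (.b (false, some 1)) + (16425) * η (.b (true, some 0)) + (40493) * η (.b (true, some 1)) + (185557) * η .e + (137148) * η (.r (false, 1)) + (85216) * η (.a (false, 0)) + (165632) * η (.a (false, 1)) = 0 := by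
    have h1 := h 10 (by norm_num)
    rw [trace_formula η 10 (by norm_num), h0, h0] at h1
    obtain ⟨t1, t2, t3, t4, t5, t6, t7, t8, t9, t10, t11, t12, t13⟩ := tab10
    rw [t1, t2, t3, t4, t5, t6, t7, t8, t9, t10, t11, t12, t13] at h1
    push_cast at h1
    linear_combination h1
  have e11 : (2380800) * η (.b (false, none)) + (-56917) * η (.b (true, none)) + (359512) * η (.b (false, some 0)) + (879856) * η (.b (false, some 1)) + (16425) * η (.b (true, some 0)) + (40493) * η (.b (true, some 1)) + (859269) * η .e + (570716) * η (.r (false, 1)) + (56917) * η (.r (true, 1)) + (375684) * η (.a (false, 0)) + (722688) * η (.a (false, 1)) + (43418) * η (.a (true, 0)) + (80596) * η (.a (true, 1)) = 0 := by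
    have h1 := h 11 (by norm_num)
    rw [trace_formula η 11 (by norm_num), h0, h0] at h1
    obtain ⟨t1, t2, t3, t4, t5, t6, t7, t8, t9, t10, t11, t12, t13⟩ := tab11
    rw [t1, t2, t3, t4, t5, t6, t7, t8, t9, t10, t11, t12, t13] at h1
    push_cast at h1
    linear_combination h1
  have e13 : (42203784) * η (.b (false, none)) + (-603029) * η (.b (true, none)) + (6405936) * η (.b (false, some 0)) + (15783936) * η (.b (false, some 1)) + (173677) * η (.b (true, some 0)) + (429353) * η (.b (true, some 1)) + (14628805) * η .e + (10006956) * η (.r (false, 1)) + (603029) * η (.r (true, 1)) + (7211104) * η (.a (false, 0)) + (13577216) * η (.a (false, 1)) + (495460) * η (.a (true, 0)) + (893480) * η (.a (true, 1)) = 0 := by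
    have h1 := h 13 (by norm_num)
    rw [trace_formula η 13 (by norm_num), h0, h0] at h1
    obtain ⟨t1, t2, t3, t4, t5, t6, t7, t8, t9, t10, t11, t12, t13⟩ := tab13
    rw [t1, t2, t3, t4, t5, t6, t7, t8, t9, t10, t11, t12, t13] at h1
    push_cast at h1
    linear_combination h1
  have z1 : η (.b (false, none)) = 0 := by
    linear_combination (-1 / 1) * e0 + (35967535705 / 11584268476) * e1 + (17411546736475 / 1355359411692) * e2 + (-18118236265505 / 1355359411692) * e3 + (-67404737676487 / 5421437646768) * e4 + (544739069361 / 54761996432) * e5 + (19938487764985 / 5421437646768) * e6 + (-92821455203 / 34752805428) * e7 + (-15675045751 / 37912151376) * e8 + (128408087387 / 417033665136) * e9 + (6504624307 / 417033665136) * e10 + (-282954673 / 18956075688) * e11 + (2114399 / 9478037844) * e13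
  have z2 : η (.b (true, none)) = 0 := by
    linear_combination (388964494301 / 11584268476) * e1 + (-6046098653125 / 338839852923) * e2 + (-58224199221967 / 1355359411692) * e3 + (127710333131911 / 5421437646768) * e4 + (1466154282221 / 164285989296) * e5 + (-40050884069953 / 5421437646768) * e6 + (6367794361 / 11584268476) * e7 + (31471775491 / 37912151376) * e8 + (-96814627907 / 417033665136) * e9 + (-12823316203 / 417033665136) * e10 + (282954673 / 18956075688) * e11 + (-2114399 / 9478037844) * e13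
  have z3 : η (.b (false, some 0)) = 0 := by
    linear_combination (1 / 1) * e0 + (349782829195 / 11584268476) * e1 + (356967498265 / 1355359411692) * e2 + (-67163375894051 / 1355359411692) * e3 + (13364435891051 / 5421437646768) * e4 + (3152972244733 / 164285989296) * e5 + (-5160692448953 / 5421437646768) * e6 + (-33733278071 / 11584268476) * e7 + (4020782483 / 37912151376) * e8 + (86499942077 / 417033665136) * e9 + (-1508844251 / 417033665136) * e10 + (-137267167 / 18956075688) * e11 + (1015271 / 9478037844) * e13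
  have z4 : η (.b (false, some 1)) = 0 := by
    linear_combination (1 / 1) * e0 + (-125157394511 / 2896067119) * e1 + (-2253781923275 / 338839852923) * e2 + (24669717339493 / 338839852923) * e3 + (825070238471 / 1355359411692) * e4 + (-299257008164 / 10267874331) * e5 + (229097462333 / 677679705846) * e6 + (40362861034 / 8688201357) * e7 + (-449900599 / 9478037844) * e8 + (-18404153483 / 52129208142) * e9 + (38513155 / 26064604071) * e10 + (30968626 / 2369509461) * e11 + (-908441 / 4739018922) * e13
  have z5 : η (.b (true, some 0)) = 0 := by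
    linear_combination (552210438959 / 11584268476) * e1 + (-4720250656969 / 338839852923) * e2 + (-87710921822857 / 1355359411692) * e3 + (111104316422305 / 5421437646768) * e4 + (1022242270521 / 54761996432) * e5 + (-35272616993551 / 5421437646768) * e6 + (-46236310027 / 34752805428) * e7 + (27572676997 / 37912151376) * e8 + (-23313023117 / 417033665136) * e9 + (-11128539541 / 417033665136) * e10 + (137267167 / 18956075688) * e11 + (-1015271 / 9478037844) * e13
  have z6 : η (.b (true, some 1)) = 0 := by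
    linear_combination (-206573930029 / 2896067119) * e1 + (8578002674684 / 338839852923) * e2 + (33134465961602 / 338839852923) * e3 + (-23509328590333 / 677679705846) * e4 + (-566494801997 / 20535748662) * e5 + (7339115756101 / 677679705846) * e6 + (14925693056 / 8688201357) * e7 + (-5698823353 / 4739018922) * e8 + (3278303089 / 26064604071) * e9 + (2292483151 / 52129208142) * e10 + (-30968626 / 2369509461) * e11 + (908441 / 4739018922) * e13
  have z7 : η .e = 0 := by
    linear_combination (-8094830267 / 2896067119) * e1 + (34133610424 / 26064604071) * e2 + (76700774467 / 26064604071) * e3 + (-171721682167 / 104258416284) * e4 + (-156734701 / 3159345948) * e5 + (54591705199 / 104258416284) * e6 + (-2349985987 / 8688201357) * e7 + (-590537479 / 9478037844) * e8 + (5114650403 / 104258416284) * e9 + (259318201 / 104258416284) * e10 + (-13864633 / 4739018922) * e11 + (122036 / 2369509461) * e13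
  have z8 : η (.r (false, 1)) = 0 := by
    linear_combination (2 / 1) * e0 + (90969055175 / 2896067119) * e1 + (-21203690810447 / 677679705846) * e2 + (-9397745308840 / 338839852923) * e3 + (11129211595717 / 338839852923) * e4 + (-36373271713 / 41071497324) * e5 + (-13327996373833 / 1355359411692) * e6 + (25084971905 / 8688201357) * e7 + (5200120421 / 4739018922) * e8 + (-50403653825 / 104258416284) * e9 + (-4260145411 / 104258416284) * e10 + (126850549 / 4739018922) * e11 + (-954119 / 2369509461) * e13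
  have z9 : η (.r (true, 1)) = 0 := by
    linear_combination (67800518223 / 2896067119) * e1 + (-8451515569366 / 338839852923) * e2 + (-8303031937858 / 338839852923) * e3 + (21294032840807 / 677679705846) * e4 + (-45851309557 / 41071497324) * e5 + (-13223737957549 / 1355359411692) * e6 + (25084971905 / 8688201357) * e7 + (5200120421 / 4739018922) * e8 + (-50403653825 / 104258416284) * e9 + (-4260145411 / 104258416284) * e10 + (126850549 / 4739018922) * e11 + (-954119 / 2369509461) * e13
  have z10 : η (.a (false, 0)) = 0 := by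
    linear_combination (-204519652385 / 46337073904) * e1 + (884004753365 / 104258416284) * e2 + (297806029853 / 417033665136) * e3 + (-20425700168333 / 1668134660544) * e4 + (102903458193 / 16849845056) * e5 + (6817000256981 / 1668134660544) * e6 + (-120859057133 / 46337073904) * e7 + (-73293016133 / 151648605504) * e8 + (606798803551 / 1668134660544) * e9 + (31206452795 / 1668134660544) * e10 + (-1487755817 / 75824302752) * e11 + (12260653 / 37912151376) * e13
  have z11 : η (.a (false, 1)) = 0 := by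
    linear_combination (828284646735 / 92674147808) * e1 + (-39477786495307 / 2710718823384) * e2 + (-41980637024575 / 10842875293536) * e3 + (871130742903271 / 43371501174144) * e4 + (-10308032521849 / 1314287914368) * e5 + (-286913199717151 / 43371501174144) * e6 + (1002627486121 / 278022443424) * e7 + (235367912971 / 303297211008) * e8 + (-1696636601489 / 3336269321088) * e9 + (-99557478613 / 3336269321088) * e10 + (4123048855 / 151648605504) * e11 + (-32728907 / 75824302752) * e13
  have z12 : η (.a (true, 0)) = 0 := by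
    linear_combination (-1598844330769 / 46337073904) * e1 + (1680159932261 / 104258416284) * e2 + (17143438624589 / 417033665136) * e3 + (-35830671010781 / 1668134660544) * e4 + (-103507143743 / 16849845056) * e5 + (11151622897637 / 1668134660544) * e6 + (-63990830069 / 46337073904) * e7 + (-111205167509 / 151648605504) * e8 + (543611884591 / 1668134660544) * e9 + (43843836587 / 1668134660544) * e10 + (-1487755817 / 75824302752) * e11 + (12260653 / 37912151376) * e13
  have z13 : η (.a (true, 1)) = 0 := by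
    linear_combination (4177191351615 / 92674147808) * e1 + (-62152412364103 / 2710718823384) * e2 + (-581148297818359 / 10842875293536) * e3 + (1338056799250087 / 43371501174144) * e4 + (10295115520375 / 1314287914368) * e5 + (-425381013926095 / 43371501174144) * e6 + (537150516449 / 278022443424) * e7 + (336466983307 / 303297211008) * e8 + (-1507075844609 / 3336269321088) * e9 + (-137469629989 / 3336269321088) * e10 + (4123048855 / 151648605504) * e11 + (-32728907 / 75824302752) * e13
  rcases x with ⟨s, _ | i⟩ | _ | ⟨s, i⟩ | ⟨s, i⟩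
  · cases s <;> assumption
  · cases s <;> fin_cases i <;> assumption
  · assumption
  · fin_cases i
    · exact h0 s
    · cases s <;> assumption
  · cases s <;> fin_cases i <;> assumption

end Pool.Agent.TH230.Dos
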