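import Pool.Agent.TH230.Dos.Alg

/-!
# The lift of a Jacobi matrix as a matrix over the group algebra
-/

set_option autoImplicit false

namespace Pool.Agent.TH230.Dos

open Pool.Agent.Results.MP_24ca2e_an.IsoDosSphere Multigraph MonoidAlgebra

open scoped ComplexConjugate InnerProductSpace

/-- parameters of a Jacobi matrix on `hub` -/
abbrev PJ : Type := (V → ℝ) × (E → ℝ)

/-- the entry linking a centre to an outer vertex -/
noncomputable def al (J : PJ) (i : I) : GA ℝ :=
  sc (J.2 (some (i, false))) + single (gn i) (J.2 (some (i, true)))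

/-- the adjoint entry -/
noncomputable def als (J : PJ) (i : I) : GA ℝ :=
  sc (J.2 (some (i, false))) + single (gn i)⁻¹ (J.2 (some (i, true)))

/-- matrix of the lift over the group algebra -/
noncomputable def HH (J : PJ) : Matrix V V (GA ℝ) := fun v w => match v, w with
  | (s, none), (t, none) => if s = t then sc (J.1 (s, none)) else sc (J.2 none)
  | (s, none), (t, some i) => if s = t then al J (s, i) else 0
  | (s, some i), (t, none) => if s = t then als J (s, i) else 0
  | (s, some i), (t, some j) => if s = t ∧ i = j then sc (J.1 (s, some i)) else 0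

theorem act_centre (J : PJ) (u : TT → ℂ) (g : FG) (s : Bool) :
    act hubCover J u (g, (s, none)) = (J.1 (s, none) : ℂ) * u (g, (s, none)) +
      ((J.2 none : ℂ) * u (g, (!s, none)) +
      ∑ i : Fin 2, ((J.2 (some ((s, i), false)) : ℂ) * u (g, (s, some i)) +
        (J.2 (some ((s, i), true)) : ℂ) * u ((gn (s, i))⁻¹ * g, (s, some i)))) := by
  unfold act
  cases s
  · simp [Fintype.sum_prod_type, Fintype.sum_option, Multigraph.src, hub, hubCover, stp]
    ring
  · simp [Fintype.sum_prod_type, Fintype.sum_option, Multigraph.src, hub, hubCover, stp]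
    ring

theorem act_outer (J : PJ) (u : TT → ℂ) (g : FG) (s : Bool) (i : Fin 2) :
    act hubCover J u (g, (s, some i)) = (J.1 (s, some i) : ℂ) * u (g, (s, some i)) +
      ((J.2 (some ((s, i), false)) : ℂ) * u (g, (s, none)) +
        (J.2 (some ((s, i), true)) : ℂ) * u (gn (s, i) * g, (s, none))) := by
  unfold act
  cases s <;> fin_cases i
  all_goals
    simp [Fintype.sum_prod_type, Fintype.sum_option, Multigraph.src, hub, hubCover, stp]
    try ring

/-- the lift as an operator on `ℓ²(TT)` -/
noncomputable def HL (J : PJ) : L2 TT →L[ℂ] L2 TT := op hubCover J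

theorem HL_apply (J : PJ) (u : L2 TT) (y : TT) : HL J u y = act hubCover J u y :=
  op_apply hubCover J u y

theorem HL_pow_delta (J : PJ) (n : ℕ) (w : V) (g : FG) (v : V) :
    (HL J ^ n) (delta ((1, w) : TT)) (g, v) = (((HH J ^ n) v w).coeff g : ℂ) := by
  induction n generalizing g v with
  | zero =>
    rw [pow_zero, pow_zero]
    change delta ((1, w) : TT) (g, v) = _
    rw [delta_apply, Matrix.one_apply]
    by_cases h : v = w
    · subst h
      by_cases hg : g = 1
      · subst hg; simp
      · rw [if_neg (by simp [hg]), if_pos rfl, one_def, coeff_single, Finsupp.single_eq_of_ne hg]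
        simp
    · simp [h]
  | succ n ih =>
    rw [pow_succ', pow_succ', Matrix.mul_apply]
    change HL J ((HL J ^ n) (delta ((1, w) : TT))) (g, v) = _
    rw [HL_apply]
    obtain ⟨s, _ | i⟩ := v
    · rw [act_centre]
      simp only [ih]
      cases s
      · simp [Fintype.sum_prod_type, Fintype.sum_option, HH, al, add_mul]
        ring
      · simp [Fintype.sum_prod_type, Fintype.sum_option, HH, al, add_mul]
        ring
    · rw [act_outer]
      simp only [ih]
      cases s <;> fin_cases i
      all_goals
        simp [Fintype.sum_prod_type, Fintype.sum_option, HH, als, add_mul]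
        try ring

/-- the trace over a fundamental set -/
noncomputable def trL (K : L2 TT →L[ℂ] L2 TT) : ℝ :=
  ∑ x : V, (⟪delta ((1, x) : TT), K (delta ((1, x) : TT))⟫_ℂ).re

theorem tr_eq_trL (K : L2 TT →L[ℂ] L2 TT) : tr hubCover K = trL K := rfl

theorem tr_op (J : PJ) (n : ℕ) : tr hubCover (op hubCover J ^ n) = mtr (HH J ^ n) := by
  change tr hubCover (HL J ^ n) = _
  rw [tr_eq_trL]
  unfold trL mtr
  refine Finset.sum_congr rfl fun x _ => ?_
  rw [inner_delta_left, HL_pow_delta]
  rfl

/-- Membership in the IsoDOS set in terms of the traces. -/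
theorem mem_isoDOS (J J₀ : PJ) : J ∈ isoDOS hubCover J₀ ↔
    (∀ e, 0 < J.2 e) ∧ ∀ n, mtr (HH J ^ n) = mtr (HH J₀ ^ n) := by
  constructor
  · rintro ⟨h1, h2⟩
    refine ⟨h1, fun n => ?_⟩
    rw [← tr_op, ← tr_op]
    exact moments_of_dos_eq hubCover J J₀ h2 n
  · rintro ⟨h1, h2⟩
    refine ⟨h1, fun f hf => dos_eq_of_moments hubCover J J₀ (fun n => ?_) f hf⟩
    rw [tr_op, tr_op, h2]

end Pool.Agent.TH230.Dos
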