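import Pool.Agent.TH230.Dos.Loc

/-!
# An IsoDOS set with an isolated point and a two-dimensional piece
-/

set_option autoImplicit false

namespace Pool.Agent.TH230.Dos

open Pool.Agent.Results.MP_24ca2e_an.IsoDosSphere Multigraph MonoidAlgebra Topology Filter

/-! ### The isolated point -/

/-- the first Jacobi matrix -/
noncomputable def J1 (ε : ℝ) : PJ := (fun v => xi0 (.b v), fun e => match e with
  | none => ε
  | some ((_, i), _) => Real.sqrt (aa i))

theorem aa_pos (i : Fin 2) : (0 : ℝ) < aa i := by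
  fin_cases i <;> simp [aa]

theorem rr_eq (i : Fin 2) : (rr i : ℝ) = aa i + aa i := by
  fin_cases i <;> norm_num [aa, rr]

/-- the invariants of the first Jacobi matrix -/
noncomputable def x1 (ε : ℝ) : Xi → ℝ
  | .b v => xi0 (.b v)
  | .e => ε ^ 2
  | .r i => xi0 (.r i)
  | .a i => xi0 (.a i)

theorem xi_J1 (ε : ℝ) : xi (J1 ε) = x1 ε := by
  funext x
  have h : ∀ i : Fin 2, Real.sqrt (aa i) * Real.sqrt (aa i) = aa i := fun i =>
    Real.mul_self_sqrt (aa_pos i).le
  rcases x with v | _ | ⟨s, i⟩ | ⟨s, i⟩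
  · rfl
  · rfl
  · simp only [xi, J1, x1, xi0]
    rw [pow_two, h, rr_eq]
  · exact h i

theorem x1_zero : x1 0 = xi0 := by
  funext x
  rcases x with v | _ | i | i
  · rfl
  · simp [x1, xi0]
  · rfl
  · rfl

theorem J1_pos (ε : ℝ) (hε : 0 < ε) (e : E) : 0 < (J1 ε).2 e := by
  rcases e with _ | ⟨⟨s, i⟩, c⟩
  · exact hε
  · exact Real.sqrt_pos.2 (aa_pos i)

theorem kk_total (ξ : Xi → ℝ) (s : Bool) (ρ : ℝ) (h : ∀ i, ξ (.a (s, i)) = aa i)
    (h3 : ξ (.r (s, 0)) + ξ (.r (s, 1)) = ρ) : kk ξ (s, 0) + kk ξ (s, 1) = sc ρ + Tm s := by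
  have hk : ∀ i, kk ξ (s, i) = sc (ξ (.r (s, i))) + (aa i : ℝ) • gg (s, i) := by
    intro i
    simp [kk, gg, h]
  have e : (sc ρ : GA ℝ) = sc (ξ (.r (s, 0))) + sc (ξ (.r (s, 1))) := by
    rw [← single_add, h3]
  rw [hk, hk, e]
  simp only [aa, Tm]
  norm_num
  abel

/-- the moments of a point over `(bb, zz)` -/
theorem mtr_of_base (ξ : Xi → ℝ) (b z : Bool → ℝ) (e ρ : ℝ)
    (hb : ∀ s, ξ (.b (s, none)) = b s) (hz : ∀ s i, ξ (.b (s, some i)) = z s) (he : ξ .e = e)
    (ha : ∀ s i, ξ (.a (s, i)) = aa i) (hr : ∀ s, ξ (.r (s, 0)) + ξ (.r (s, 1)) = ρ) (n : ℕ) :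
    mtr (MM ξ ^ n) = mtr (M4 b z e (fun s => sc ρ + Tm s) ^ n) +
      (mtr (PZ z ^ n) - mtr (QZ z ^ n)) := by
  rw [mtr_MM ξ z hz n]
  have h1 : (fun s => ξ (.b (s, none))) = b := funext hb
  have h2 : (fun s => kk ξ (s, 0) + kk ξ (s, 1)) = fun s => sc ρ + Tm s :=
    funext fun s => kk_total ξ s ρ (ha s) (hr s)
  rw [h1, h2, he]

theorem rr_sum : (rr 0 : ℝ) + rr 1 = 6 := by norm_num [rr]

/-- The comparison point: the sums of squares of the first petals are those of `J`. -/
noncomputable def xs (ε : ℝ) (J : PJ) : Xi → ℝ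
  | .b v => xi0 (.b v)
  | .e => ε ^ 2
  | .r (s, i) => if i = 0 then xi J (.r (s, 0)) else 6 - xi J (.r (s, 0))
  | .a i => xi0 (.a i)

theorem mtr_xs (ε : ℝ) (J : PJ) (n : ℕ) : mtr (MM (xs ε J) ^ n) = mtr (MM (x1 ε) ^ n) := by
  rw [mtr_of_base (xs ε J) (fun s => bb s) (fun s => zz s) (ε ^ 2) 6 (fun s => rfl)
      (fun s i => rfl) rfl (fun s i => rfl) (fun s => by simp [xs]) n,
    mtr_of_base (x1 ε) (fun s => bb s) (fun s => zz s) (ε ^ 2) 6 (fun s => rfl)
      (fun s i => rfl) rfl (fun s i => rfl) (fun s => rr_sum) n]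

theorem continuous_xi : Continuous xi := by
  refine continuous_pi fun x => ?_
  rcases x with v | _ | i | i
  · exact (continuous_apply v).comp continuous_fst
  · exact ((continuous_apply none).comp continuous_snd).pow 2
  · exact (((continuous_apply (some (i, false))).comp continuous_snd).pow 2).add
      (((continuous_apply (some (i, true))).comp continuous_snd).pow 2)
  · exact ((continuous_apply (some (i, false))).comp continuous_snd).mul
      ((continuous_apply (some (i, true))).comp continuous_snd)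

theorem continuous_xs (ε : ℝ) : Continuous (xs ε) := by
  refine continuous_pi fun x => ?_
  rcases x with v | _ | ⟨s, i⟩ | i
  · exact continuous_const
  · exact continuous_const
  · have h := (continuous_apply (Xi.r (s, 0))).comp continuous_xi
    by_cases hi : i = 0
    · subst hi
      exact h
    · have : (fun J => xs ε J (.r (s, i))) = fun J => 6 - xi J (.r (s, 0)) := by
        funext J
        simp [xs, hi]
      rw [this]
      exact continuous_const.sub h
  · exact continuous_const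

theorem xs_J1 (ε : ℝ) : xs ε (J1 ε) = x1 ε := by
  funext x
  rcases x with v | _ | ⟨s, i⟩ | i
  · rfl
  · rfl
  · by_cases hi : i = 0
    · subst hi
      simp only [xs, if_true]
      rw [xi_J1]
    · have : i = 1 := by omega
      subst this
      simp only [xs, xi_J1, x1, xi0]
      norm_num [rr]
  · rfl

theorem continuous_x1 : Continuous x1 := by
  refine continuous_pi fun x => ?_
  rcases x with v | _ | i | i
  · exact continuous_const
  · exact continuous_pow 2
  · exact continuous_const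
  · exact continuous_const

/-- A point whose invariants agree with the comparison point is `J1 ε`. -/
theorem eq_J1 (ε : ℝ) (hε : 0 < ε) (J : PJ) (hJ : ∀ e, 0 < J.2 e) (h : xi J = xs ε J) :
    J = J1 ε := by
  have hb : J.1 = (J1 ε).1 := by
    funext v
    exact congrFun h (.b v)
  have he : J.2 none = ε := by
    have h1 : J.2 none ^ 2 = ε ^ 2 := congrFun h .e
    exact (pow_left_inj₀ (hJ none).le hε.le two_ne_zero).1 h1
  have ha : ∀ s i, J.2 (some ((s, i), false)) * J.2 (some ((s, i), true)) = aa i := fun s i =>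
    congrFun h (.a (s, i))
  have hr : ∀ s, J.2 (some ((s, 1), false)) ^ 2 + J.2 (some ((s, 1), true)) ^ 2 =
      6 - (J.2 (some ((s, 0), false)) ^ 2 + J.2 (some ((s, 0), true)) ^ 2) := by
    intro s
    have := congrFun h (.r (s, 1))
    simpa [xs, xi] using this
  have hd : ∀ s i, J.2 (some ((s, i), false)) = J.2 (some ((s, i), true)) := by
    intro s
    have h0 := ha s 0
    have h1 := ha s 1
    have h2 := hr s
    simp only [aa, if_true] at h0 h1
    norm_num at h0 h1
    have hs : (J.2 (some ((s, 0), false)) - J.2 (some ((s, 0), true))) ^ 2 +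
        (J.2 (some ((s, 1), false)) - J.2 (some ((s, 1), true))) ^ 2 = 0 := by
      nlinarith
    have hs0 : (J.2 (some ((s, 0), false)) - J.2 (some ((s, 0), true))) ^ 2 = 0 := by
      nlinarith [sq_nonneg (J.2 (some ((s, 0), false)) - J.2 (some ((s, 0), true))),
        sq_nonneg (J.2 (some ((s, 1), false)) - J.2 (some ((s, 1), true)))]
    have hs1 : (J.2 (some ((s, 1), false)) - J.2 (some ((s, 1), true))) ^ 2 = 0 := by
      nlinarith
    intro i
    fin_cases i
    · exact sub_eq_zero.1 (pow_eq_zero_iff two_ne_zero |>.1 hs0)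
    · exact sub_eq_zero.1 (pow_eq_zero_iff two_ne_zero |>.1 hs1)
  have hw : ∀ s i c, J.2 (some ((s, i), c)) = Real.sqrt (aa i) := by
    intro s i c
    have h1 := ha s i
    rw [← hd] at h1
    have h2 : J.2 (some ((s, i), false)) = Real.sqrt (aa i) := by
      rw [← h1, Real.sqrt_mul_self (hJ _).le]
    cases c
    · exact h2
    · rw [← hd, h2]
  refine Prod.ext hb ?_
  funext e
  rcases e with _ | ⟨⟨s, i⟩, c⟩
  · exact he
  · exact hw s i c

/-- The choice of the connecting weight, and the isolating neighbourhood. -/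
theorem exists_isolated : ∃ ε : ℝ, 0 < ε ∧ ∃ O : Set PJ, IsOpen O ∧ J1 ε ∈ O ∧
    ∀ J ∈ O, J ∈ isoDOS hubCover (J1 ε) → J = J1 ε := by
  obtain ⟨N, hN, hinj⟩ := loc_inj
  have h0 : ∀ᶠ ε in 𝓝 (0 : ℝ), x1 ε ∈ interior N := by
    have : interior N ∈ 𝓝 (x1 0) := by rw [x1_zero]; exact interior_mem_nhds.2 hN
    exact continuous_x1.continuousAt this
  obtain ⟨ε, hε, hx⟩ : ∃ ε : ℝ, 0 < ε ∧ x1 ε ∈ interior N := by
    obtain ⟨δ, hδ, hb⟩ := Metric.eventually_nhds_iff.1 h0
    refine ⟨δ / 2, by positivity, hb ?_⟩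
    rw [Real.dist_eq, sub_zero, abs_of_pos (by positivity)]
    linarith
  refine ⟨ε, hε, xi ⁻¹' interior N ∩ xs ε ⁻¹' interior N,
    (isOpen_interior.preimage continuous_xi).inter (isOpen_interior.preimage (continuous_xs ε)),
    ⟨by rw [Set.mem_preimage, xi_J1]; exact hx, by rw [Set.mem_preimage, xs_J1]; exact hx⟩, ?_⟩
  rintro J ⟨hJ1, hJ2⟩ hJ
  rw [mem_isoDOS] at hJ
  refine eq_J1 ε hε J hJ.1 ?_
  refine hinj _ (interior_subset hJ1) _ (interior_subset hJ2) (fun s => by simp [xs]) fun n => ?_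
  rw [mtr_xs, ← xi_J1, ← mtr_HH J (hJ.1 none).ne' n, ← mtr_HH (J1 ε) (J1_pos ε hε none).ne' n,
    hJ.2 n]

/-! ### The second family -/

/-- the potentials of the second family -/
def b2 (v : V) : ℝ := match v with
  | (s, none) => bb s + zz s - zz (!s)
  | (s, some _) => zz (!s)

theorem mem_second (ε : ℝ) (hε : 0 < ε) (J : PJ) (hp : ∀ e, 0 < J.2 e) (hb : J.1 = b2)
    (he : J.2 none = ε) (ha : ∀ s i, xi J (.a (s, i)) = aa i)
    (hr : ∀ s, xi J (.r (s, 0)) + xi J (.r (s, 1)) = 7) : J ∈ isoDOS hubCover (J1 ε) := by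
  rw [mem_isoDOS]
  refine ⟨hp, fun n => ?_⟩
  have hK : nK (fun s => (bb s : ℝ)) (fun s => (zz s : ℝ)) (fun s => sc 6 + Tm s) =
      fun s => sc 7 + Tm s := by
    funext s
    have e : (sc (7 : ℝ) : GA ℝ) = sc 6 + sc 1 := by
      rw [← single_add]; norm_num
    unfold nK
    rw [e]
    cases s
    · simp only [bb, zz]
      norm_num
      abel
    · simp only [bb, zz]
      norm_num
      abel
  rw [mtr_HH J (hp none).ne' n, mtr_HH (J1 ε) (J1_pos ε hε none).ne' n, xi_J1,
    mtr_of_base (xi J) (fun s => bb s + zz s - zz (!s)) (fun s => zz (!s)) (ε ^ 2) 7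
      (fun s => congrFun hb (s, none)) (fun s i => congrFun hb (s, some i))
      (by simp only [xi, he]) ha hr n,
    mtr_of_base (x1 ε) (fun s => bb s) (fun s => zz s) (ε ^ 2) 6 (fun s => rfl)
      (fun s i => rfl) rfl (fun s i => rfl) (fun s => rr_sum) n,
    swap (fun s => (bb s : ℝ)) (fun s => (zz s : ℝ)) (ε ^ 2) (fun s => sc 6 + Tm s) n,
    mtr_PZ_swap (fun s => (zz s : ℝ)) (fun s => (zz (!s) : ℝ)) (fun s => rfl) n, hK]

/-- coordinates of the two petals of a side -/
def cmp (i : Fin 2) (y : ℂ) : ℝ := if i = 0 then y.re else y.im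

/-- the second family -/
noncomputable def J2 (ε : ℝ) (y : Bool → ℂ) : PJ := (b2, fun e => match e with
  | none => ε
  | some ((s, i), c) => Real.sqrt (aa i) * Real.exp ((if c then -1 else 1) * cmp i (y s) / 2))

theorem J2_pos (ε : ℝ) (hε : 0 < ε) (y : Bool → ℂ) (e : E) : 0 < (J2 ε y).2 e := by
  rcases e with _ | ⟨⟨s, i⟩, c⟩
  · exact hε
  · exact mul_pos (Real.sqrt_pos.2 (aa_pos i)) (Real.exp_pos _)

theorem xi_J2_a (ε : ℝ) (y : Bool → ℂ) (s : Bool) (i : Fin 2) :
    xi (J2 ε y) (.a (s, i)) = aa i := by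
  simp only [xi, J2, if_true, Bool.false_eq_true, if_false]
  rw [mul_mul_mul_comm, Real.mul_self_sqrt (aa_pos i).le, ← Real.exp_add]
  ring_nf
  simp

theorem xi_J2_r (ε : ℝ) (y : Bool → ℂ) (s : Bool) (i : Fin 2) :
    xi (J2 ε y) (.r (s, i)) = 2 * aa i * Real.cosh (cmp i (y s)) := by
  simp only [xi, J2, if_true, Bool.false_eq_true, if_false]
  rw [mul_pow, mul_pow, Real.sq_sqrt (aa_pos i).le, ← Real.exp_nat_mul, ← Real.exp_nat_mul,
    Real.cosh_eq]
  have h1 : ((2 : ℕ) : ℝ) * (1 * cmp i (y s) / 2) = cmp i (y s) := by push_cast; ring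
  have h2 : ((2 : ℕ) : ℝ) * (-1 * cmp i (y s) / 2) = -cmp i (y s) := by push_cast; ring
  rw [h1, h2]
  ring

/-- the level curve -/
def Cv : Set ℂ := {y | 2 * Real.cosh y.re + 4 * Real.cosh y.im = 7}

theorem mem_J2 (ε : ℝ) (hε : 0 < ε) (y : Bool → ℂ) (hy : ∀ s, y s ∈ Cv) :
    J2 ε y ∈ isoDOS hubCover (J1 ε) := by
  refine mem_second ε hε _ (J2_pos ε hε y) rfl rfl (xi_J2_a ε y) fun s => ?_
  rw [xi_J2_r, xi_J2_r]
  have h := hy s
  have h' : 2 * Real.cosh (y s).re + 4 * Real.cosh (y s).im = 7 := h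
  simp only [aa, cmp, if_true, one_ne_zero, if_false]
  push_cast
  linear_combination h'

theorem continuous_cmp (i : Fin 2) : Continuous (cmp i) := by
  unfold cmp
  by_cases hi : i = 0
  · simp only [hi, if_true]
    exact Complex.continuous_re
  · simp only [hi, if_false]
    exact Complex.continuous_im

theorem continuous_J2 (ε : ℝ) : Continuous (J2 ε) := by
  refine Continuous.prodMk continuous_const (continuous_pi fun e => ?_)
  rcases e with _ | ⟨⟨s, i⟩, c⟩
  · exact continuous_const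
  · refine continuous_const.mul (Real.continuous_exp.comp ?_)
    exact (continuous_const.mul ((continuous_cmp i).comp (continuous_apply s))).div_const 2

theorem J2_inj (ε : ℝ) : Function.Injective (J2 ε) := by
  intro y y' h
  have key : ∀ s i, cmp i (y s) = cmp i (y' s) := by
    intro s i
    have h1 : Real.sqrt (aa i) * Real.exp (1 * cmp i (y s) / 2) =
        Real.sqrt (aa i) * Real.exp (1 * cmp i (y' s) / 2) := by
      have := congrFun (congrArg Prod.snd h) (some ((s, i), false))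
      simpa [J2] using this
    have h2 := mul_left_cancel₀ (Real.sqrt_pos.2 (aa_pos i)).ne' h1
    have h3 := Real.exp_injective h2
    linarith
  funext s
  exact Complex.ext (key s 0) (key s 1)

/-! ### The level curve is a circle -/

theorem abs_le_cosh (x : ℝ) : |x| ≤ Real.cosh x := by
  have h1 : |x| ≤ Real.sinh |x| := Real.self_le_sinh_iff.2 (abs_nonneg x)
  have h2 : Real.sinh |x| < Real.cosh |x| := Real.sinh_lt_cosh _
  rw [Real.cosh_abs] at h2
  linarith

theorem isCompact_Cv : IsCompact Cv := by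
  refine Metric.isCompact_of_isClosed_isBounded ?_ ?_
  · exact isClosed_eq (by fun_prop) continuous_const
  · refine (Metric.isBounded_closedBall (x := (0 : ℂ)) (r := 7)).subset fun y hy => ?_
    have hy' : 2 * Real.cosh y.re + 4 * Real.cosh y.im = 7 := hy
    rw [mem_closedBall_zero_iff]
    have h1 := Complex.norm_le_abs_re_add_abs_im y
    have h2 := abs_le_cosh y.re
    have h3 := abs_le_cosh y.im
    have h4 := Real.one_le_cosh y.re
    have h5 := Real.one_le_cosh y.im
    linarith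

theorem Cv_ne {y : ℂ} (hy : y ∈ Cv) : y ≠ 0 := by
  rintro rfl
  have hy' : 2 * Real.cosh (0 : ℂ).re + 4 * Real.cosh (0 : ℂ).im = 7 := hy
  simp at hy'
  norm_num at hy'

theorem Cv_scale {y : ℂ} (hy : y ∈ Cv) (c : ℝ) (hc : 1 < c) (hcy : (c : ℂ) * y ∈ Cv) : False := by
  have h1 : 2 * Real.cosh y.re + 4 * Real.cosh y.im = 7 := hy
  have h2 : 2 * Real.cosh ((c : ℂ) * y).re + 4 * Real.cosh ((c : ℂ) * y).im = 7 := hcy
  rw [Complex.re_ofReal_mul, Complex.im_ofReal_mul] at h2
  have hle : ∀ x : ℝ, Real.cosh x ≤ Real.cosh (c * x) := by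
    intro x
    rw [Real.cosh_le_cosh, abs_mul, abs_of_pos (show 0 < c by linarith)]
    nlinarith [abs_nonneg x]
  have hlt : ∀ x : ℝ, x ≠ 0 → Real.cosh x < Real.cosh (c * x) := by
    intro x hx
    rw [Real.cosh_lt_cosh, abs_mul, abs_of_pos (show 0 < c by linarith)]
    nlinarith [abs_pos.2 hx]
  have hy0 := Cv_ne hy
  by_cases hre : y.re = 0
  · have him : y.im ≠ 0 := fun h => hy0 (Complex.ext hre h)
    have := hlt _ him
    have := hle y.re
    linarith
  · have := hlt _ hre
    have := hle y.im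
    linarith

/-- the radial projection -/
noncomputable def rad (y : Cv) : Circle :=
  ⟨(y.1 : ℂ) / (‖y.1‖ : ℂ), by
    have : ‖y.1‖ ≠ 0 := norm_ne_zero_iff.2 (Cv_ne y.2)
    refine mem_sphere_zero_iff_norm.2 ?_
    rw [norm_div, Complex.norm_real, norm_norm, div_self this]⟩

theorem continuous_rad : Continuous rad := by
  refine Continuous.subtype_mk ?_ _
  refine Continuous.div continuous_subtype_val
    (Complex.continuous_ofReal.comp continuous_subtype_val.norm) fun y => ?_
  simpa using Cv_ne y.2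

theorem rad_inj : Function.Injective rad := by
  have key : ∀ y z : Cv, rad y = rad z → ¬ ‖y.1‖ < ‖z.1‖ := by
    intro y z h hlt
    have hy : ‖y.1‖ ≠ 0 := norm_ne_zero_iff.2 (Cv_ne y.2)
    have hz : ‖z.1‖ ≠ 0 := norm_ne_zero_iff.2 (Cv_ne z.2)
    have hy' : (‖y.1‖ : ℂ) ≠ 0 := by exact_mod_cast hy
    have hz' : (‖z.1‖ : ℂ) ≠ 0 := by exact_mod_cast hz
    have h1 : (y.1 : ℂ) / (‖y.1‖ : ℂ) = z.1 / (‖z.1‖ : ℂ) := congrArg Subtype.val h
    have h2 : z.1 = ((‖z.1‖ / ‖y.1‖ : ℝ) : ℂ) * y.1 := by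
      push_cast
      field_simp at h1 ⊢
      linear_combination -h1
    have hpos : 0 < ‖y.1‖ := lt_of_le_of_ne (norm_nonneg _) hy.symm
    refine Cv_scale y.2 (‖z.1‖ / ‖y.1‖) ((one_lt_div hpos).2 hlt) ?_
    rw [← h2]
    exact z.2
  intro y z h
  have h1 : ‖y.1‖ = ‖z.1‖ :=
    le_antisymm (not_lt.1 (key z y h.symm)) (not_lt.1 (key y z h))
  have h2 : (y.1 : ℂ) / (‖y.1‖ : ℂ) = z.1 / (‖z.1‖ : ℂ) := congrArg Subtype.val h
  have hz : (‖z.1‖ : ℂ) ≠ 0 := by
    exact_mod_cast norm_ne_zero_iff.2 (Cv_ne z.2)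
  rw [h1, div_left_inj' hz] at h2
  exact Subtype.ext h2

theorem rad_surj : Function.Surjective rad := by
  intro u
  have hu : ‖(u : ℂ)‖ = 1 := Circle.norm_coe u
  let h : ℝ → ℝ := fun r => 2 * Real.cosh (r * (u : ℂ).re) + 4 * Real.cosh (r * (u : ℂ).im)
  have hc : ContinuousOn h (Set.Icc 0 4) := by
    refine Continuous.continuousOn ?_
    fun_prop
  have h0 : h 0 = 6 := by
    simp [h]
    norm_num
  have h4 : 7 ≤ h 4 := by
    have a1 := abs_le_cosh (4 * (u : ℂ).re)
    have a2 := abs_le_cosh (4 * (u : ℂ).im)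
    have a3 := Complex.norm_le_abs_re_add_abs_im (u : ℂ)
    have a4 := Real.one_le_cosh (4 * (u : ℂ).im)
    rw [abs_mul, abs_of_pos (by norm_num : (0 : ℝ) < 4)] at a1 a2
    rw [hu] at a3
    simp only [h]
    linarith
  obtain ⟨r, hr, hr7⟩ := intermediate_value_Icc (by norm_num : (0 : ℝ) ≤ 4) hc
    ⟨by rw [h0]; norm_num, h4⟩
  have hrpos : 0 < r := by
    rcases hr.1.lt_or_eq with h' | h'
    · exact h'
    · rw [← h', h0] at hr7
      norm_num at hr7
  have hmem : (r : ℂ) * (u : ℂ) ∈ Cv := by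
    change 2 * Real.cosh ((r : ℂ) * (u : ℂ)).re + 4 * Real.cosh ((r : ℂ) * (u : ℂ)).im = 7
    rw [Complex.re_ofReal_mul, Complex.im_ofReal_mul]
    exact hr7
  refine ⟨⟨_, hmem⟩, Subtype.ext ?_⟩
  change (r : ℂ) * (u : ℂ) / (‖(r : ℂ) * (u : ℂ)‖ : ℂ) = u
  rw [norm_mul, hu, mul_one, Complex.norm_real, Real.norm_of_nonneg hrpos.le]
  have : (r : ℂ) ≠ 0 := by exact_mod_cast hrpos.ne'
  field_simp

/-- the level curve is homeomorphic to the circle -/
noncomputable def cvHomeo : Cv ≃ₜ Circle :=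
  haveI : CompactSpace Cv := isCompact_iff_compactSpace.1 isCompact_Cv
  Continuous.homeoOfEquivCompactToT2 (f := Equiv.ofBijective rad ⟨rad_inj, rad_surj⟩)
    continuous_rad

/-- the torus in the IsoDOS set -/
noncomputable def tor (ε : ℝ) (p : Circle × Circle) : PJ :=
  J2 ε fun s => if s then (cvHomeo.symm p.2 : ℂ) else (cvHomeo.symm p.1 : ℂ)

theorem continuous_tor (ε : ℝ) : Continuous (tor ε) := by
  refine (continuous_J2 ε).comp (continuous_pi fun s => ?_)
  cases s
  · exact continuous_subtype_val.comp (cvHomeo.symm.continuous.comp continuous_fst)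
  · exact continuous_subtype_val.comp (cvHomeo.symm.continuous.comp continuous_snd)

theorem tor_inj (ε : ℝ) : Function.Injective (tor ε) := by
  intro p q h
  have := J2_inj ε h
  have h1 := congrFun this false
  have h2 := congrFun this true
  simp only [Bool.false_eq_true, if_false, if_true] at h1 h2
  exact Prod.ext (cvHomeo.symm.injective (Subtype.ext h1))
    (cvHomeo.symm.injective (Subtype.ext h2))

theorem tor_mem (ε : ℝ) (hε : 0 < ε) (p : Circle × Circle) :
    tor ε p ∈ isoDOS hubCover (J1 ε) := by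
  refine mem_J2 ε hε _ fun s => ?_
  cases s
  · exact (cvHomeo.symm p.1).2
  · exact (cvHomeo.symm p.2).2

/-! ### No atlas -/

theorem no_chart {X : Type} [TopologicalSpace X] (a b : X) (ha : IsOpen ({a} : Set X))
    (hb : ¬ IsOpen ({b} : Set X)) (n : ℕ) :
    IsEmpty (ChartedSpace (EuclideanSpace ℝ (Fin n)) X) := by
  constructor
  intro hch
  -- the image of the isolated point is an isolated point of the model space
  have h1 : IsOpen ((chartAt (EuclideanSpace ℝ (Fin n)) a) '' {a}) :=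
    (chartAt (EuclideanSpace ℝ (Fin n)) a).isOpen_image_of_subset_source ha
      (Set.singleton_subset_iff.2 (mem_chart_source _ a))
  rw [Set.image_singleton] at h1
  have hn : n = 0 := by
    by_contra hne
    have : Nonempty (Fin n) := ⟨⟨0, Nat.pos_of_ne_zero hne⟩⟩
    have h2 : (𝓝[≠] (chartAt (EuclideanSpace ℝ (Fin n)) a a)).NeBot := inferInstance
    exact not_isOpen_singleton _ h1
  subst hn
  apply hb
  have h3 : (chartAt (EuclideanSpace ℝ (Fin 0)) b).source = {b} := by
    refine Set.eq_singleton_iff_unique_mem.2 ⟨mem_chart_source _ b, fun y hy => ?_⟩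
    exact (chartAt (EuclideanSpace ℝ (Fin 0)) b).injOn hy (mem_chart_source _ b)
      (Subsingleton.elim _ _)
  rw [← h3]
  exact (chartAt (EuclideanSpace ℝ (Fin 0)) b).open_source

/-- The IsoDOS set carries no atlas. -/
theorem isoDOS_no_chart (ε : ℝ) (hε : 0 < ε) (O : Set PJ) (hO : IsOpen O) (h1 : J1 ε ∈ O)
    (h2 : ∀ J ∈ O, J ∈ isoDOS hubCover (J1 ε) → J = J1 ε) (n : ℕ) :
    IsEmpty (ChartedSpace (EuclideanSpace ℝ (Fin n)) (isoDOS hubCover (J1 ε))) := by
  have hJ1 : J1 ε ∈ isoDOS hubCover (J1 ε) := ⟨J1_pos ε hε, fun _ _ => rfl⟩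
  -- the torus in the set
  let c : Circle × Circle → isoDOS hubCover (J1 ε) := fun p => ⟨tor ε p, tor_mem ε hε p⟩
  have hc : Continuous c := Continuous.subtype_mk (continuous_tor ε) _
  have hinj : Function.Injective c := fun x y hxy => tor_inj ε (congrArg Subtype.val hxy)
  refine no_chart (⟨J1 ε, hJ1⟩ : isoDOS hubCover (J1 ε)) (c 1) ?_ ?_ n
  · have : ({(⟨J1 ε, hJ1⟩ : isoDOS hubCover (J1 ε))} : Set (isoDOS hubCover (J1 ε))) =
        Subtype.val ⁻¹' O := by
      ext J
      constructor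
      · intro h
        rw [Set.mem_singleton_iff] at h
        rw [h]
        exact h1
      · intro h
        exact Subtype.ext (h2 J.1 h J.2)
    rw [this]
    exact hO.preimage continuous_subtype_val
  · intro hopen
    have h3 := hopen.preimage hc
    have h4 : c ⁻¹' {c 1} = {1} := by
      ext x
      simp [hinj.eq_iff]
    rw [h4] at h3
    -- a singleton of the torus is not open
    have : PreconnectedSpace Circle := circle_preconnected
    have h5 : IsClopen ({1} : Set (Circle × Circle)) := ⟨isClosed_singleton, h3⟩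
    have h6 := h5.eq_univ ⟨_, rfl⟩
    have h7 : ((-1, -1) : Circle × Circle) ∈ ({1} : Set (Circle × Circle)) := by
      rw [h6]; trivial
    have h8 := congrArg Prod.fst (Set.mem_singleton_iff.1 h7)
    have h9 := congrArg (fun z : Circle => (z : ℂ).re) h8
    simp at h9
    norm_num at h9

end Pool.Agent.TH230.Dos
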